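import Pool.Agent.K9h52.EG.Stm

set_option autoImplicit false

namespace Pool.Agent.K9h52.EG.Ab1

open Finset Real

/-- `inc E x S` is antitone in `S` -/
theorem inc_anti {E : Finset ℕ → ℝ} (hE : IsEnt E) (x : ℕ) {S T : Finset ℕ} (h : S ⊆ T) : inc E x T ≤ inc E x S := by
  unfold inc
  by_cases hx : x ∈ T
  · rw [insert_eq_self.2 hx]
    have := hE.mono S (insert x S) (subset_insert x S)
    linarith
  · have h1 := hE.submod (insert x S) T
    have e1 : insert x S ∪ T = insert x T := by
      rw [insert_union, union_eq_right.2 h]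
    have e2 : insert x S ∩ T = S := by
      rw [insert_inter_of_notMem hx, inter_eq_left.2 h]
    rw [e1, e2] at h1
    linarith

theorem inc_nonneg {E : Finset ℕ → ℝ} (hE : IsEnt E) (x : ℕ) (S : Finset ℕ) : 0 ≤ inc E x S := by
  unfold inc
  have := hE.mono S (insert x S) (subset_insert x S)
  linarith

theorem chain (E : Finset ℕ → ℝ) (F : Finset ℕ) (d : ℕ → ℕ) (n : ℕ) :
    E (F ∪ (range n).image d) - E F = ∑ t ∈ range n, inc E (d t) (F ∪ (range t).image d) := by
  induction n with
  | zero => simp
  | succ n ih =>
    rw [sum_range_succ, ← ih]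
    unfold inc
    rw [range_add_one, image_insert, union_insert]
    ring

theorem ab1 : S_AB1 := by
  intro E hE n D η C a p g G g' hn hC hgp hpG hg hblk
  set F := range (a + (n - 1) * p - g') with hF
  have hnp : ∀ t, t < n → (n - 1) * p ≤ t * p + (n - 1 - t) * p := by
    intro t ht
    rw [← add_mul]
    exact Nat.mul_le_mul_right _ (by omega)
  have hb := hblk F
  unfold Blk at hb
  have hA : ∀ t ∈ range n, hh E (a + t * p) ≤ E (insert (a + t * p) F) - E F := by
    intro t ht
    rw [mem_range] at ht
    refine inc_anti hE _ ?_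
    rw [hF]
    apply range_mono
    have h1 := hnp t ht
    have h2 : (n - 1 - t) * p ≤ n * G := Nat.mul_le_mul (by omega) hpG
    show a + (n - 1) * p - g' ≤ a + t * p
    omega
  have hB : ∀ t ∈ range n, E (insert (a + t * p) F) - E F ≤ inc E (a + t * p) (range (a + t * p - g')) := by
    intro t ht
    rw [mem_range] at ht
    refine inc_anti hE _ ?_
    rw [hF]
    apply range_mono
    have h1 : t * p ≤ (n - 1) * p := Nat.mul_le_mul_right _ (by omega)
    show a + t * p - g' ≤ a + (n - 1) * p - g'
    omega
  have hC' : ∑ t ∈ range n, inc E (a + t * p) (range (a + t * p - g)) ≤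
      E (F ∪ (range n).image (fun t => a + t * p)) - E F := by
    rw [chain]
    refine sum_le_sum fun t ht => ?_
    rw [mem_range] at ht
    refine inc_anti hE _ ?_
    intro y hy
    rw [mem_union, hF, mem_range, mem_image] at hy
    rw [mem_range]
    rcases hy with hy | ⟨s, hs, rfl⟩
    · have h1 := hnp t ht
      have h2 : (n - 1 - t) * p ≤ n * G := Nat.mul_le_mul (by omega) hpG
      omega
    · rw [mem_range] at hs
      have h1 : (s + 1) * p ≤ t * p := Nat.mul_le_mul_right _ (by omega)
      rw [add_mul, one_mul] at h1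
      show a + s * p < a + t * p - g
      omega
  have h1 := sum_le_sum hA
  have h2 := sum_le_sum hB
  have h3 : ∑ t ∈ range n, dl E g g' (a + t * p) = ∑ t ∈ range n, inc E (a + t * p) (range (a + t * p - g')) -
      ∑ t ∈ range n, inc E (a + t * p) (range (a + t * p - g)) := by
    rw [← sum_sub_distrib]; rfl
  rw [h3]
  have h4 : C * (∑ t ∈ range n, (E (insert (a + t * p) F) - E F) -
      (E (F ∪ (range n).image (fun t => a + t * p)) - E F)) ≤
      C * (∑ t ∈ range n, inc E (a + t * p) (range (a + t * p - g')) -
      ∑ t ∈ range n, inc E (a + t * p) (range (a + t * p - g))) :=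
    mul_le_mul_of_nonneg_left (by linarith) hC
  linarith

end Pool.Agent.K9h52.EG.Ab1
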