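import Pool.Agent.K9h52.EG.Stm

/-! leaf AB2: sums over a residue class in blocks -/

set_option autoImplicit false

namespace Pool.Agent.K9h52.EG.AB2_

open Finset Pool.Agent.K9h52.EG

theorem blocks {N r p n : ℕ} {h q : ℕ → ℝ} {K B : ℝ} (hn : 1 ≤ n) (hK : 0 ≤ K)
    (hh : ∀ x, 0 ≤ h x ∧ h x ≤ B) (hq : ∀ x, 0 ≤ q x)
    (hb : ∀ a : ℕ, p ∣ r + a → a + (n - 1) * p < N →
      ∑ t ∈ range n, h (a + t * p) ≤ K + ∑ t ∈ range n, q (a + t * p)) :
    ∀ (m a : ℕ), p ∣ r + a → (∀ i < m, a + i * p < N) →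
      ∑ i ∈ range m, h (a + i * p) ≤ K / n * m + ∑ i ∈ range m, q (a + i * p) + n * B := by
  intro m
  induction m using Nat.strong_induction_on with
  | _ m ih =>
    intro a ha hm
    have hB : 0 ≤ B := (hh 0).1.trans (hh 0).2
    have hn0 : (0 : ℝ) < n := by exact_mod_cast hn
    rcases Nat.lt_or_ge m n with hmn | hmn
    · have h1 : ∑ i ∈ range m, h (a + i * p) ≤ ∑ i ∈ range m, B :=
        sum_le_sum fun i _ => (hh _).2
      rw [sum_const, card_range, nsmul_eq_mul] at h1
      have h2 : (m : ℝ) * B ≤ n * B := mul_le_mul_of_nonneg_right (by exact_mod_cast hmn.le) hB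
      have h3 : 0 ≤ ∑ i ∈ range m, q (a + i * p) := sum_nonneg fun i _ => hq _
      have h4 : 0 ≤ K / n * m := by positivity
      linarith
    · obtain ⟨k, rfl⟩ := Nat.exists_eq_add_of_le hmn
      rw [sum_range_add, sum_range_add]
      have h1 := hb a ha (hm (n - 1) (by omega))
      have e : ∀ i, a + (n + i) * p = (a + n * p) + i * p := fun i => by ring
      have h2 := ih k (by omega) (a + n * p) (by
          rw [← add_assoc]
          exact dvd_add ha (dvd_mul_left p n))
        (fun i hi => by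
          rw [← e]
          exact hm (n + i) (by omega))
      simp only [e]
      have h3 : K / n * ((n + k : ℕ) : ℝ) = K + K / n * k := by
        push_cast
        field_simp
      rw [h3]
      linarith

theorem ab2 : S_AB2 := by
  intro N r p n h q K B hn hp hK hh hq hb
  obtain ⟨x₀, hx₀⟩ : ∃ x₀, x₀ = (p - r % p) % p := ⟨_, rfl⟩
  have hx₀p : x₀ < p := by rw [hx₀]; exact Nat.mod_lt _ hp
  have hdvd : p ∣ r + x₀ := by
    have h1 : r % p < p := Nat.mod_lt _ hp
    have h2 : r + (p - r % p) = p * (r / p + 1) := by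
      have h3 := Nat.div_add_mod r p
      rw [Nat.mul_add, Nat.mul_one]
      omega
    rw [Nat.dvd_iff_mod_eq_zero, hx₀, Nat.add_mod_mod, h2, Nat.mul_mod_right]
  obtain ⟨m, hm⟩ : ∃ m, m = (N + p - 1 - x₀) / p := ⟨_, rfl⟩
  have hlt : ∀ i, i < m ↔ x₀ + i * p < N := by
    intro i
    rw [hm, Nat.lt_iff_add_one_le, Nat.le_div_iff_mul_le hp, Nat.add_mul, Nat.one_mul]
    omega
  have hS : (range N).filter (fun x => p ∣ r + x) = (range m).image (fun i => x₀ + i * p) := by
    ext x
    rw [mem_filter, mem_range, mem_image]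
    constructor
    · rintro ⟨h1, h2⟩
      have h3 : x % p = x₀ := by
        have h4 : r + x ≡ r + x₀ [MOD p] :=
          ((Nat.modEq_zero_iff_dvd.2 h2).trans (Nat.modEq_zero_iff_dvd.2 hdvd).symm)
        have h5 := Nat.ModEq.add_left_cancel' r h4
        rw [Nat.ModEq, Nat.mod_eq_of_lt hx₀p] at h5
        exact h5
      have h6 : x₀ + x / p * p = x := by
        rw [← h3, mul_comm]
        exact Nat.mod_add_div x p
      exact ⟨x / p, mem_range.2 ((hlt _).2 (by rw [h6]; exact h1)), h6⟩
    · rintro ⟨i, hi, rfl⟩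
      refine ⟨(hlt i).1 (mem_range.1 hi), ?_⟩
      rw [← add_assoc]
      exact dvd_add hdvd (dvd_mul_left p i)
  have hinj : Set.InjOn (fun i => x₀ + i * p) (range m : Finset ℕ) := by
    intro i _ j _ hij
    have h1 : i * p = j * p := by
      have : x₀ + i * p = x₀ + j * p := hij
      omega
    exact Nat.eq_of_mul_eq_mul_right hp h1
  rw [hS, sum_image hinj, sum_image hinj, card_image_of_injOn hinj, card_range]
  exact blocks hn hK hh hq hb m x₀ hdvd (fun i hi => (hlt i).1 hi)

end Pool.Agent.K9h52.EG.AB2_
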