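import Pool.Agent.K9h52.EG.Stm

/-!
# Leaf AB3: elementary facts on increments of an entropy function
-/

set_option autoImplicit false

namespace Pool.Agent.K9h52.EG

open Finset

namespace AB3_

variable {E : Finset ℕ → ℝ}

theorem inc_nonneg (hE : IsEnt E) (x : ℕ) (S : Finset ℕ) : 0 ≤ inc E x S :=
  sub_nonneg.2 (hE.mono _ _ (subset_insert x S))

theorem inc_le (hE : IsEnt E) (x : ℕ) (S : Finset ℕ) : inc E x S ≤ Real.log 2 := by
  have := hE.bit x S
  unfold inc
  linarith

theorem inc_anti (hE : IsEnt E) (x : ℕ) {S T : Finset ℕ} (h : S ⊆ T) : inc E x T ≤ inc E x S := by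
  have h1 := hE.submod (insert x S) T
  have h2 : insert x S ∪ T = insert x T := by
    rw [insert_union, union_eq_right.2 h]
  have h3 := hE.mono S (insert x S ∩ T) (subset_inter (subset_insert x S) h)
  rw [h2] at h1
  unfold inc
  linarith

end AB3_

open AB3_ in
theorem ab3 : S_AB3 := by
  intro E hE
  refine ⟨fun N => ?_, fun x => ⟨inc_nonneg hE _ _, inc_le hE _ _⟩, fun g g' x h => ?_,
    fun g K x hg => ?_⟩
  · have h1 : ∀ x, hh E x = E (range (x + 1)) - E (range x) := by
      intro x
      rw [hh, inc, range_add_one]
    rw [sum_congr rfl fun x _ => h1 x, sum_range_sub (fun x => E (range x)), range_zero, hE.empty,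
      sub_zero]
  · have h1 : inc E x (range (x - g)) ≤ inc E x (range (x - g')) :=
      inc_anti hE x (range_subset_range.2 (by omega))
    have h2 := inc_le hE x (range (x - g'))
    have h3 := inc_nonneg hE x (range (x - g))
    unfold dl
    constructor <;> linarith
  · have h1 : ∀ k, dl E (g k) (g (k + 1)) x =
        inc E x (range (x - g (k + 1))) - inc E x (range (x - g k)) := fun k => rfl
    rw [sum_congr rfl fun k _ => h1 k, sum_range_sub (fun k => inc E x (range (x - g k)))]
    have h2 := inc_le hE x (range (x - g K))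
    have h3 := inc_nonneg hE x (range (x - g 0))
    linarith

end Pool.Agent.K9h52.EG
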