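import Pool.Agent.K9h52.EG.Stm

set_option autoImplicit false

namespace Pool.Agent.K9h52.EG.Abs_

open Finset Real

/-- double counting -/
theorem dc (M : Finset ℕ) (r N : ℕ) (v : ℕ → ℝ) :
    ∑ p ∈ M, ∑ x ∈ (range N).filter (fun x => p ∣ r + x), v x = ∑ x ∈ range N, v x * om M r x := by
  simp_rw [sum_filter]
  rw [sum_comm]
  refine sum_congr rfl fun x _ => ?_
  unfold om
  rw [card_filter, Nat.cast_sum, mul_sum]
  refine sum_congr rfl fun p _ => ?_
  split_ifs <;> simp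

/-- one scale -/
theorem one (h1 : S_AB1) (h2 : S_AB2) (h3 : S_AB3) {n D : ℕ} (hn : 1 ≤ n) {η C : ℝ} (hη : 0 < η) (hC : 0 < C)
    {g G g' : ℕ} (hg : g + n * G ≤ g') {N : ℕ} {r : ℕ} {E : Finset ℕ → ℝ} (hE : IsEnt E)
    (hblk : ∀ p : ℕ, p.Prime → p ≤ G → ∀ a : ℕ, p ∣ r + a → a + (n - 1) * p < N → ∀ F : Finset ℕ,
      Blk E n D η C F a p)
    (hT : ∀ (r : ℕ) (u : ℕ → ℝ), (∀ x, 0 ≤ u x ∧ u x ≤ 1) →
      |∑ x ∈ range N, u x * om ((Ioc g G).filter Nat.Prime) r x -
        (∑ p ∈ (Ioc g G).filter Nat.Prime, 1 / (p : ℝ)) * ∑ x ∈ range N, u x| ≤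
      (√(∑ p ∈ (Ioc g G).filter Nat.Prime, 1 / (p : ℝ)) + 1) * N) :
    (∑ p ∈ (Ioc g G).filter Nat.Prime, 1 / (p : ℝ)) * ∑ x ∈ range N, hh E x ≤
      Real.log 2 * ((√(∑ p ∈ (Ioc g G).filter Nat.Prime, 1 / (p : ℝ)) + 1) * N) +
      (D * Real.log 2 + η) / n * ((∑ p ∈ (Ioc g G).filter Nat.Prime, 1 / (p : ℝ)) * N +
        (√(∑ p ∈ (Ioc g G).filter Nat.Prime, 1 / (p : ℝ)) + 1) * N) +
      C * ((∑ p ∈ (Ioc g G).filter Nat.Prime, 1 / (p : ℝ)) * ∑ x ∈ range N, dl E g g' x +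
        Real.log 2 * ((√(∑ p ∈ (Ioc g G).filter Nat.Prime, 1 / (p : ℝ)) + 1) * N)) +
      ((Ioc g G).filter Nat.Prime).card * (n * Real.log 2) := by
  obtain ⟨-, e1, e2, -⟩ := h3 E hE
  have hL : 0 < Real.log 2 := Real.log_pos (by norm_num)
  have hgg : g ≤ g' := by omega
  set M := (Ioc g G).filter Nat.Prime with hM
  set S := ∑ p ∈ M, 1 / (p : ℝ) with hS
  have hK : 0 ≤ D * Real.log 2 + η := by positivity
  -- each prime
  have key : ∀ p ∈ M, ∑ x ∈ (range N).filter (fun x => p ∣ r + x), hh E x ≤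
      (D * Real.log 2 + η) / n * ((range N).filter (fun x => p ∣ r + x)).card +
        ∑ x ∈ (range N).filter (fun x => p ∣ r + x), C * dl E g g' x + n * Real.log 2 := by
    intro p hp
    rw [hM, mem_filter, mem_Ioc] at hp
    obtain ⟨⟨hp1, hp2⟩, hp3⟩ := hp
    refine h2 N r p n (hh E) (fun x => C * dl E g g' x) _ _ hn hp3.one_lt.le hK e1
      (fun x => mul_nonneg hC.le (e2 g g' x hgg).1) ?_
    intro a ha1 ha2
    have := h1 E hE n D η C a p g G g' hn hC.le hp1 hp2 hg (hblk p hp3 hp2 a ha1 ha2)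
    rw [mul_sum] at this
    exact this
  have hsum := sum_le_sum key
  rw [dc, sum_add_distrib, sum_add_distrib, ← mul_sum, dc, sum_const, nsmul_eq_mul] at hsum
  have hcard : ∑ p ∈ M, (((range N).filter (fun x => p ∣ r + x)).card : ℝ) = ∑ x ∈ range N, 1 * om M r x := by
    rw [← dc]
    refine sum_congr rfl fun p _ => ?_
    rw [sum_const, nsmul_eq_mul, mul_one]
  rw [hcard] at hsum
  -- Turan-Kubilius
  have t1 := hT r (fun x => hh E x / Real.log 2) (fun x => ⟨div_nonneg (e1 x).1 hL.le, by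
    rw [div_le_one hL]; exact (e1 x).2⟩)
  have t2 := hT r (fun _ => 1) (fun x => ⟨by norm_num, by norm_num⟩)
  have t3 := hT r (fun x => dl E g g' x / Real.log 2) (fun x => ⟨div_nonneg (e2 g g' x hgg).1 hL.le, by
    rw [div_le_one hL]; exact (e2 g g' x hgg).2⟩)
  have r1 : ∑ x ∈ range N, hh E x * om M r x = Real.log 2 * ∑ x ∈ range N, hh E x / Real.log 2 * om M r x := by
    rw [mul_sum]; refine sum_congr rfl fun x _ => ?_; field_simp
  have r1' : ∑ x ∈ range N, hh E x = Real.log 2 * ∑ x ∈ range N, hh E x / Real.log 2 := by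
    rw [mul_sum]; refine sum_congr rfl fun x _ => ?_; field_simp
  have r3 : ∑ x ∈ range N, C * dl E g g' x * om M r x =
      C * (Real.log 2 * ∑ x ∈ range N, dl E g g' x / Real.log 2 * om M r x) := by
    rw [mul_sum, mul_sum]; refine sum_congr rfl fun x _ => ?_; field_simp
  have r3' : ∑ x ∈ range N, dl E g g' x = Real.log 2 * ∑ x ∈ range N, dl E g g' x / Real.log 2 := by
    rw [mul_sum]; refine sum_congr rfl fun x _ => ?_; field_simp
  have a1 := (abs_le.1 t1).1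
  have a2 := (abs_le.1 t2).2
  have a3 := (abs_le.1 t3).2
  rw [sum_const, card_range, nsmul_eq_mul, mul_one] at a2
  rw [r1, r3] at hsum
  rw [r1', r3']
  set A := ∑ x ∈ range N, hh E x / Real.log 2 with hA
  set B := ∑ x ∈ range N, dl E g g' x / Real.log 2 with hB
  set A' := ∑ x ∈ range N, hh E x / Real.log 2 * om M r x
  set B' := ∑ x ∈ range N, dl E g g' x / Real.log 2 * om M r x
  set O' := ∑ x ∈ range N, 1 * om M r x
  set U := (√S + 1) * (N : ℝ)
  have b1 := mul_le_mul_of_nonneg_left a1 hL.le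
  have b2 := mul_le_mul_of_nonneg_left a2 (div_nonneg hK (Nat.cast_nonneg n : (0:ℝ) ≤ n))
  have b3 := mul_le_mul_of_nonneg_left a3 (mul_nonneg hC.le hL.le)
  have c1 : S * (Real.log 2 * A) = Real.log 2 * (S * A) := by ring
  rw [c1]
  nlinarith [b1, b2, b3, hsum]

theorem abs' (h1 : S_AB1) (h2 : S_AB2) (h3 : S_AB3) (hT : S_TK) (hP : S_PR) : S_ABS := by
  intro n D δ hn hδ
  have hL : 0 < Real.log 2 := Real.log_pos (by norm_num)
  have hn' : (1 : ℝ) ≤ n := by exact_mod_cast hn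
  refine ⟨δ / 4 * Real.log 2, by positivity, fun C hC => ?_⟩
  set η := δ / 4 * Real.log 2 with hη
  have hη0 : 0 < η := by positivity
  set A := Real.log 2 + (D * Real.log 2 + η) + C * Real.log 2 with hA
  have hA0 : 0 < A := by positivity
  set S0 := (16 * A / (δ * Real.log 2)) ^ 2 + 1 with hS0
  choose GG hGG1 hGG2 using fun g => hP g S0
  set gs : ℕ → ℕ := fun k => Nat.rec 0 (fun _ g => g + n * GG g) k with hgs
  have hgs' : ∀ k, gs (k + 1) = gs k + n * GG (gs k) := fun k => rfl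
  have hmono : Monotone gs := monotone_nat_of_le_succ fun k => by rw [hgs']; omega
  obtain ⟨K, hK1, hK2⟩ : ∃ K : ℕ, 0 < K ∧ C / K ≤ δ / 4 := by
    refine ⟨⌈4 * C / δ⌉₊ + 1, by omega, ?_⟩
    have h := Nat.le_ceil (4 * C / δ)
    rw [div_le_iff₀ hδ] at h
    rw [div_le_iff₀ (by positivity)]
    push_cast
    nlinarith
  set M : ℕ → Finset ℕ := fun k => (Ioc (gs k) (GG (gs k))).filter Nat.Prime with hM
  choose N1 hN1 using fun k => hT (M k) (fun p hp => (mem_filter.1 hp).2)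
  refine ⟨gs K, ∑ k ∈ range K, (N1 k + ⌈8 * (n * (M k).card) / δ⌉₊), fun N hN r E hE hblk => ?_⟩
  obtain ⟨e0, e1, e2, e3⟩ := h3 E hE
  -- pigeonhole
  obtain ⟨k, hk, hk2⟩ : ∃ k ∈ range K, ∑ x ∈ range N, dl E (gs k) (gs (k + 1)) x ≤ Real.log 2 * N / K := by
    apply exists_le_of_sum_le (nonempty_range_iff.2 hK1.ne')
    rw [sum_comm, sum_const, card_range, nsmul_eq_mul]
    calc ∑ x ∈ range N, ∑ k ∈ range K, dl E (gs k) (gs (k + 1)) x ≤ ∑ x ∈ range N, Real.log 2 :=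
          sum_le_sum fun x _ => e3 gs K x hmono
      _ = (K : ℝ) * (Real.log 2 * N / K) := by
          rw [sum_const, card_range, nsmul_eq_mul]
          have : (K : ℝ) ≠ 0 := by exact_mod_cast hK1.ne'
          field_simp
  rw [mem_range] at hk
  have hNk : N1 k + ⌈8 * (n * (M k).card) / δ⌉₊ ≤ N :=
    le_trans (single_le_sum (f := fun k => N1 k + ⌈8 * (n * (M k).card) / δ⌉₊) (fun _ _ => Nat.zero_le _)
      (mem_range.2 hk)) hN
  have hGle : GG (gs k) ≤ gs K := by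
    have h4 : gs (k + 1) ≤ gs K := hmono (show k + 1 ≤ K by omega)
    rw [hgs'] at h4
    have : GG (gs k) ≤ n * GG (gs k) := Nat.le_mul_of_pos_left _ (by omega)
    omega
  have hone := one h1 h2 h3 (D := D) hn hη0 hC (g := gs k) (G := GG (gs k)) (g' := gs (k + 1))
    (by rw [hgs']) (N := N) (r := r) hE (fun p hp hpG a ha1 ha2 F => hblk p hp (hpG.trans hGle) a ha1 ha2 F)
    (hN1 k N (by omega))
  rw [e0 N]
  have hSk : S0 ≤ ∑ p ∈ M k, 1 / (p : ℝ) := hGG2 (gs k)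
  have hMc : ((M k).card : ℝ) * (n * Real.log 2) ≤ δ / 8 * Real.log 2 * N := by
    have h5 : (⌈8 * (n * (M k).card) / δ⌉₊ : ℝ) ≤ N := by exact_mod_cast (by omega : ⌈8 * (n * (M k).card) / δ⌉₊ ≤ N)
    have h6 := (Nat.le_ceil (8 * ((n : ℝ) * (M k).card) / δ)).trans h5
    rw [div_le_iff₀ hδ] at h6
    nlinarith
  change (∑ p ∈ M k, 1 / (p : ℝ)) * _ ≤ Real.log 2 * ((√(∑ p ∈ M k, 1 / (p : ℝ)) + 1) * N) +
      (D * Real.log 2 + η) / n * ((∑ p ∈ M k, 1 / (p : ℝ)) * N +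
        (√(∑ p ∈ M k, 1 / (p : ℝ)) + 1) * N) +
      C * ((∑ p ∈ M k, 1 / (p : ℝ)) * ∑ x ∈ range N, dl E (gs k) (gs (k + 1)) x +
        Real.log 2 * ((√(∑ p ∈ M k, 1 / (p : ℝ)) + 1) * N)) +
      (M k).card * (n * Real.log 2) at hone
  generalize (∑ p ∈ M k, 1 / (p : ℝ)) = S at hone hSk
  generalize (∑ x ∈ range N, hh E x) = X at hone ⊢
  generalize (∑ x ∈ range N, dl E (gs k) (gs (k + 1)) x) = Y at hone hk2
  generalize ((M k).card : ℝ) = c at hone hMc
  -- the final computation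
  have hS1 : 1 ≤ S := le_trans (by rw [hS0]; nlinarith [sq_nonneg (16 * A / (δ * Real.log 2))]) hSk
  have hN0 : (0 : ℝ) ≤ N := Nat.cast_nonneg N
  have hsq : 16 * A / (δ * Real.log 2) ≤ √S := by
    apply Real.le_sqrt_of_sq_le
    refine le_trans ?_ hSk
    rw [hS0]; linarith
  have hs1 : 1 ≤ √S := by rw [Real.one_le_sqrt]; exact hS1
  have hss : √S * √S = S := Real.mul_self_sqrt (by linarith)
  have hAs : 16 * A ≤ δ * Real.log 2 * √S := by
    rw [div_le_iff₀ (by positivity)] at hsq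
    linarith
  -- (√S + 1) A ≤ δ/8 log 2 S
  have hU : (√S + 1) * A ≤ δ / 8 * Real.log 2 * S := by
    have h7 : (√S + 1) * A ≤ 2 * √S * A := by nlinarith
    have h8 : 2 * √S * A ≤ δ / 8 * Real.log 2 * (√S * √S) := by nlinarith
    rw [hss] at h8
    linarith
  have hY : C * (S * Y) ≤ δ / 4 * Real.log 2 * N * S := by
    have h9 : C * Y ≤ C / K * (Real.log 2 * N) := by
      have := mul_le_mul_of_nonneg_left hk2 hC.le
      calc C * Y ≤ C * (Real.log 2 * N / K) := this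
        _ = C / K * (Real.log 2 * N) := by ring
    have h10 : C / K * (Real.log 2 * N) ≤ δ / 4 * (Real.log 2 * N) :=
      mul_le_mul_of_nonneg_right hK2 (by positivity)
    have h11 : C * Y ≤ δ / 4 * Real.log 2 * N := by linarith
    nlinarith
  have hdn : (D * Real.log 2 + η) / n ≤ D * Real.log 2 + η := div_le_self (by positivity) hn'
  have hdn0 : 0 ≤ (D * Real.log 2 + η) / n := by positivity
  have hdn1 : (D * Real.log 2 + η) / n ≤ (D / n + δ / 4) * Real.log 2 := by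
    have h12 : η / n ≤ η := div_le_self hη0.le hn'
    have h13 : (D * Real.log 2 + η) / n = D / n * Real.log 2 + η / n := by ring
    rw [h13, hη] at *
    linarith
  have hUN : 0 ≤ (√S + 1) * (N : ℝ) := by positivity
  have f1 : Real.log 2 * ((√S + 1) * N) + (D * Real.log 2 + η) / n * ((√S + 1) * N) +
      C * (Real.log 2 * ((√S + 1) * N)) ≤ δ / 8 * Real.log 2 * S * N := by
    have h14 : Real.log 2 * ((√S + 1) * N) + (D * Real.log 2 + η) / n * ((√S + 1) * N) +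
      C * (Real.log 2 * ((√S + 1) * N)) ≤ A * ((√S + 1) * N) := by
      rw [hA]
      nlinarith [mul_le_mul_of_nonneg_right hdn hUN]
    have h15 : A * ((√S + 1) * N) = ((√S + 1) * A) * N := by ring
    rw [h15] at h14
    exact h14.trans (mul_le_mul_of_nonneg_right hU hN0)
  have f2 : (D * Real.log 2 + η) / n * (S * N) ≤ (D / n + δ / 4) * Real.log 2 * N * S := by
    have := mul_le_mul_of_nonneg_right hdn1 (by positivity : 0 ≤ S * (N : ℝ))
    linarith
  have f3 : c * (n * Real.log 2) ≤ δ / 8 * Real.log 2 * N * S := by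
    have h16 : 0 ≤ δ / 8 * Real.log 2 * N := by positivity
    nlinarith
  have f4 : S * X ≤ ((D / n + δ) * Real.log 2 * N) * S := by
    have h17 : 0 ≤ δ / 4 * Real.log 2 * N * S := by positivity
    nlinarith
  have hS0' : 0 < S := by linarith
  nlinarith [f4, (mul_le_mul_iff_right₀ hS0').1 (by linarith : S * X ≤ S * ((D / n + δ) * Real.log 2 * N))]

end Pool.Agent.K9h52.EG.Abs_
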