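import Pool.Agent.K9h52.EG.Stm

set_option autoImplicit false

/-! Leaf BLK: the block inequality by conditioning. -/

namespace Pool.Agent.K9h52.EG.BLK_

open Finset H137.PFR

theorem push_apply' {Ω α : Type*} [Fintype Ω] [DecidableEq α] (w : Ω → ℝ) (X : Ω → α) (a : α) :
    push w X a = ∑ ω, if X ω = a then w ω else 0 := by
  unfold push
  refine Finset.sum_congr rfl fun ω _ => ?_
  by_cases h : X ω = a
  · rw [if_pos h, if_pos h]
  · rw [if_neg h, if_neg h]

theorem push_cnd {Ω α β γ : Type*} [Fintype Ω] [Fintype α] (w : Ω → ℝ) (X : Ω → α)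
    (C : Ω → γ) (g : α → β) (c : γ) :
    push (cnd w X C c) g = cnd w (fun ω => g (X ω)) C c := by
  classical
  funext b
  rw [push_apply']
  unfold cnd
  have h1 : ∀ a, (if g a = b then push w (fun ω => (X ω, C ω)) (a, c) / push w C c else 0) =
      (if g a = b then push w (fun ω => (X ω, C ω)) (a, c) else 0) / push w C c := by
    intro a
    split_ifs <;> simp
  rw [Finset.sum_congr rfl (fun a _ => h1 a), ← Finset.sum_div]
  congr 1
  rw [push_apply']
  have h2 : ∀ a, (if g a = b then push w (fun ω => (X ω, C ω)) (a, c) else 0) =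
      ∑ ω, if g a = b then (if (X ω, C ω) = (a, c) then w ω else 0) else 0 := by
    intro a
    rw [push_apply']
    split_ifs
    · rfl
    · simp
  rw [Finset.sum_congr rfl (fun a _ => h2 a), Finset.sum_comm]
  refine Finset.sum_congr rfl fun ω _ => ?_
  rw [Finset.sum_eq_single (X ω)]
  · by_cases h1 : g (X ω) = b <;> by_cases h2 : C ω = c <;> simp [h1, h2]
  · intro a _ ha
    have h3 : (X ω, C ω) ≠ (a, c) := fun h => ha (Prod.ext_iff.1 h).1.symm
    rw [if_neg h3]
    simp
  · intro h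
    exact absurd (Finset.mem_univ _) h

theorem eU {Ω : Type} [Fintype Ω] {w : Ω → ℝ} (hw : Law w) (x : Ω → ℕ → ℤˣ) (F : Finset ℕ) (n a p : ℕ) :
    E w x (F ∪ (range n).image (fun t => a + t * p)) =
      H w (fun ω => ((fun t : Fin n => x ω (a + t * p)), fun j : F => x ω (j : ℕ))) := by
  classical
  unfold E
  refine H_eq hw
    (fun u : ((F ∪ (range n).image (fun t => a + t * p) : Finset ℕ) → ℤˣ) =>
      ((fun t : Fin n => u ⟨a + t * p, by
          rw [mem_union, mem_image]
          exact Or.inr ⟨t, mem_range.2 t.2, rfl⟩⟩),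
        fun j : F => u ⟨j, mem_union_left _ j.2⟩))
    (fun q j => if hj : (j : ℕ) ∈ F then q.2 ⟨j, hj⟩ else
      if h2 : ∃ t : Fin n, a + (t : ℕ) * p = (j : ℕ) then q.1 h2.choose else 1) ?_ ?_
  · intro ω
    rfl
  · intro ω
    funext j
    by_cases hj : (j : ℕ) ∈ F
    · simp only [hj, dif_pos]
    · have h2 : ∃ t : Fin n, a + (t : ℕ) * p = (j : ℕ) := by
        have h3 := j.2
        rw [mem_union, mem_image] at h3
        rcases h3 with h3 | ⟨t, ht, ht2⟩
        · exact absurd h3 hj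
        · exact ⟨⟨t, mem_range.1 ht⟩, ht2⟩
      simp only [hj, h2, dif_pos, dif_neg, not_false_iff]
      rw [h2.choose_spec]

theorem eT {Ω : Type} [Fintype Ω] {w : Ω → ℝ} (hw : Law w) (x : Ω → ℕ → ℤˣ) (F : Finset ℕ) (b : ℕ) :
    E w x (insert b F) = H w (fun ω => (x ω b, fun j : F => x ω (j : ℕ))) := by
  classical
  unfold E
  refine H_eq hw
    (fun u : ({j // j ∈ insert b F} → ℤˣ) =>
      (u ⟨b, mem_insert_self _ _⟩, fun j : F => u ⟨j, mem_insert_of_mem j.2⟩))
    (fun q j => if hj : (j : ℕ) ∈ F then q.2 ⟨j, hj⟩ else q.1) ?_ ?_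
  · intro ω
    rfl
  · intro ω
    funext j
    by_cases hj : (j : ℕ) ∈ F
    · simp only [hj, dif_pos]
    · have h2 : (j : ℕ) = b := by
        have h3 := j.2
        rw [mem_insert] at h3
        exact h3.resolve_right hj
      simp only [hj, dif_neg, not_false_iff]
      rw [h2]

end Pool.Agent.K9h52.EG.BLK_

namespace Pool.Agent.K9h52.EG

open Finset H137.PFR BLK_ in
theorem BLK_.blk (h : S_NU) : S_BLK := by
  classical
  intro n η hn hη
  obtain ⟨C, hC, hC2⟩ := h n η hn hη
  refine ⟨C, hC, fun L D hL Ω _ w x hw F a p hsup => ?_⟩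
  obtain ⟨Y, hY⟩ : ∃ Y : Ω → (F → ℤˣ), Y = fun ω (j : F) => x ω (j : ℕ) := ⟨_, rfl⟩
  obtain ⟨X, hX⟩ : ∃ X : Ω → (Fin n → ℤˣ), X = fun ω (t : Fin n) => x ω (a + (t : ℕ) * p) := ⟨_, rfl⟩
  have eF : E w x F = H w Y := by rw [hY]; rfl
  have eU' : E w x (F ∪ (range n).image (fun t => a + t * p)) = H w (fun ω => (X ω, Y ω)) := by
    rw [hX, hY]
    exact eU hw x F n a p
  have eT' : ∀ t : Fin n, E w x (insert (a + (t : ℕ) * p) F) = H w (fun ω => (X ω t, Y ω)) := by
    intro t
    rw [hX, hY]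
    exact eT hw x F _
  have c1 := H_chain hw X Y
  have c2 : ∀ t : Fin n, H w (fun ω => (X ω t, Y ω)) =
      H w Y + ∑ c, push w Y c * ent (push (cnd w X Y c) (fun v => v t)) := by
    intro t
    rw [H_chain hw (fun ω => X ω t) Y]
    congr 1
    refine Finset.sum_congr rfl fun c _ => ?_
    rw [push_cnd w X Y (fun v => v t) c]
  have hin : ∀ c, push w Y c * (∑ t, ent (push (cnd w X Y c) (fun v => v t))) ≤
      push w Y c * (D * Real.log 2 + η + C * (∑ t, ent (push (cnd w X Y c) (fun v => v t)) -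
        ent (cnd w X Y c))) := by
    intro c
    by_cases hc : push w Y c = 0
    · rw [hc, zero_mul, zero_mul]
    · apply mul_le_mul_of_nonneg_left _ ((law_push hw Y).1 c)
      apply hC2 L D hL (cnd w X Y c) (law_cnd hw X Y hc)
      intro v hv
      have h1 : push w (fun ω => (X ω, Y ω)) (v, c) ≠ 0 := by
        intro h0
        apply hv
        unfold cnd
        rw [h0, zero_div]
      unfold push at h1
      obtain ⟨ω, _, hω⟩ := Finset.exists_ne_zero_of_sum_ne_zero h1
      have h2 : (X ω, Y ω) = (v, c) := by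
        by_contra h3
        exact hω (if_neg h3)
      rw [if_pos h2] at hω
      have h3 := hsup ω hω
      have h4 : X ω = v := (Prod.ext_iff.1 h2).1
      rw [← h4, hX]
      exact h3
  have hsum := Finset.sum_le_sum (fun c (_ : c ∈ (Finset.univ : Finset (F → ℤˣ))) => hin c)
  have h1 : ∑ c, push w Y c = 1 := (law_push hw Y).2
  obtain ⟨A, hA⟩ : ∃ A : ℝ, A = ∑ c, push w Y c * (∑ t, ent (push (cnd w X Y c) (fun v => v t))) := ⟨_, rfl⟩
  obtain ⟨B, hB⟩ : ∃ B : ℝ, B = ∑ c, push w Y c * ent (cnd w X Y c) := ⟨_, rfl⟩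
  have h2 : ∑ c, push w Y c * (D * Real.log 2 + η + C * (∑ t, ent (push (cnd w X Y c) (fun v => v t)) -
        ent (cnd w X Y c))) = D * Real.log 2 + η + C * (A - B) := by
    rw [hA, hB, ← Finset.sum_sub_distrib, Finset.mul_sum]
    have : D * Real.log 2 + η = ∑ c, push w Y c * (D * Real.log 2 + η) := by
      rw [← Finset.sum_mul, h1, one_mul]
    rw [this, ← Finset.sum_add_distrib]
    refine Finset.sum_congr rfl fun c _ => ?_
    rw [← Finset.sum_mul, h1]
    ring
  rw [← hA, h2] at hsum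
  have hA2 : ∑ t ∈ range n, (E w x (insert (a + t * p) F) - E w x F) = A := by
    rw [Finset.sum_range, hA]
    simp_rw [Finset.mul_sum]
    rw [Finset.sum_comm]
    refine Finset.sum_congr rfl fun t _ => ?_
    rw [eT' t, eF, c2 t]
    ring
  have hB2 : E w x (F ∪ (range n).image (fun t => a + t * p)) - E w x F = B := by
    rw [eU', eF, c1, hB]
    ring
  unfold Blk
  rw [hA2, hB2]
  exact hsum

end Pool.Agent.K9h52.EG
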