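import Pool.Agent.K9h52.EG.Stm

/-!
Leaf CUB (helper51): trivial facts on cubes of patterns.
-/

set_option autoImplicit false

namespace Pool.Agent.K9h52.EG.CUB_

open Finset H137.PFR Pool.Agent.K9h52.EG

/-- LEAF CUB -/
theorem cub : S_CUB := by
  classical
  intro f n
  have hne : ({d : ℕ | ∃ (T : Finset (Fin n)) (e : Fin n → ℤˣ), Cube f T e ∧ T.card = d}).Nonempty := by
    refine ⟨0, ∅, fun j => f (1 + j + 1), ?_, Finset.card_empty⟩
    intro e' he'
    exact ⟨1, le_rfl, fun j => (he' j (Finset.notMem_empty j)).symm⟩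
  have hbd : ∀ d ∈ {d : ℕ | ∃ (T : Finset (Fin n)) (e : Fin n → ℤˣ), Cube f T e ∧ T.card = d},
      d ≤ n := by
    rintro d ⟨T, e, _, rfl⟩
    simpa using Finset.card_le_univ T
  have hbdd : BddAbove {d : ℕ | ∃ (T : Finset (Fin n)) (e : Fin n → ℤˣ), Cube f T e ∧ T.card = d} :=
    ⟨n, hbd⟩
  have hmem := Nat.sSup_mem hne hbdd
  have h1 : ∃ (T : Finset (Fin n)) (e : Fin n → ℤˣ), Cube f T e ∧ T.card = cubeDim f n := hmem
  have h2 : ∀ (T : Finset (Fin n)) (e : Fin n → ℤˣ), Cube f T e → T.card ≤ cubeDim f n :=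
    fun T e h => le_csSup hbdd ⟨T, e, h, rfl⟩
  have h3 : cubeDim f n ≤ n := hbd _ hmem
  have hP : P f n = Fintype.card {e : Fin n → ℤˣ // Occurs f e} := by
    unfold P
    exact Nat.card_eq_fintype_card
  have h4 : 2 ^ cubeDim f n ≤ P f n := by
    obtain ⟨T, e, hT, hc⟩ := h1
    have hcard : Fintype.card ({j // j ∈ T} → ℤˣ) = 2 ^ cubeDim f n := by
      rw [Fintype.card_fun, Fintype.card_coe, hc]
      rfl
    rw [← hcard, hP]
    refine Fintype.card_le_of_injective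
      (fun g : {j // j ∈ T} → ℤˣ =>
        (⟨fun j => if h : j ∈ T then g ⟨j, h⟩ else e j, hT _ fun j hj => by
          show (if h : j ∈ T then g ⟨j, h⟩ else e j) = e j
          rw [dif_neg hj]⟩ : {e : Fin n → ℤˣ // Occurs f e})) ?_
    intro g g' hgg
    funext j
    have h5 := congrFun (Subtype.ext_iff.1 hgg) j.1
    have h6 : (if h : j.1 ∈ T then g ⟨j.1, h⟩ else e j.1) =
        (if h : j.1 ∈ T then g' ⟨j.1, h⟩ else e j.1) := h5
    rw [dif_pos j.2, dif_pos j.2] at h6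
    exact h6
  have h5 : P f n ≤ 2 ^ n := by
    rw [hP]
    refine (Fintype.card_subtype_le _).trans ?_
    rw [Fintype.card_fun, Fintype.card_fin]
    exact le_of_eq rfl
  refine ⟨h1, h2, h3, h4, h5, ?_⟩
  intro h6
  rcases lt_or_eq_of_le h3 with h7 | h7
  · exact h7
  · rw [h7] at h4
    omega

end Pool.Agent.K9h52.EG.CUB_
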