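import Pool.Agent.K9h52.EG.Stm2

/-!
Leaf CUB2: trivial facts on cubes of patterns that occur on large sets (helper45, after `Cub.lean` of helper51).
-/

set_option autoImplicit false

namespace Pool.Agent.K9h52.EG.CUB2_

open Finset H137.PFR Pool.Agent.K9h52.EG

/-- partition regularity for finite unions -/
theorem large_biUnion {L : Set ℕ → Prop} (hL : IsLarge L) {ι : Type} [DecidableEq ι] (S : Finset ι)
    (A : ι → Set ℕ) (h : L (⋃ i ∈ S, A i)) : ∃ i ∈ S, L (A i) := by
  induction S using Finset.induction_on with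
  | empty =>
    exfalso
    apply hL.empty
    simpa using h
  | insert a S _ ih =>
    rw [Finset.set_biUnion_insert] at h
    rcases hL.union _ _ h with h1 | h1
    · exact ⟨a, Finset.mem_insert_self a S, h1⟩
    · obtain ⟨i, hi, h2⟩ := ih h1
      exact ⟨i, Finset.mem_insert_of_mem hi, h2⟩

/-- some pattern occurs -/
theorem exists_occ {L : Set ℕ → Prop} (hL : IsLarge L) (f : ℕ → ℤˣ) (n : ℕ) :
    ∃ e : Fin n → ℤˣ, OccursL L f e := by
  classical
  obtain ⟨e, -, he⟩ := large_biUnion hL (Finset.univ : Finset (Fin n → ℤˣ))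
    (fun e => {m : ℕ | 1 ≤ m ∧ ∀ j : Fin n, f (m + j + 1) = e j}) (by
      refine hL.mono _ _ ?_ hL.all
      intro m hm
      have hm' : 1 ≤ m := hm
      simp only [Finset.mem_univ, Set.iUnion_true, Set.mem_iUnion]
      exact ⟨fun j => f (m + j + 1), hm', fun j => rfl⟩)
  exact ⟨e, he⟩

/-- LEAF CUB2 -/
theorem cub2 : S_CUB2 := by
  classical
  intro L hL f n
  have hne : ({d : ℕ | ∃ (T : Finset (Fin n)) (e : Fin n → ℤˣ),
      CubeL L f T e ∧ T.card = d}).Nonempty := by
    obtain ⟨e, he⟩ := exists_occ hL f n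
    refine ⟨0, ∅, e, ?_, Finset.card_empty⟩
    intro e' he'
    have h1 : e' = e := funext fun j => he' j (Finset.notMem_empty j)
    rw [h1]
    exact he
  have hbd : ∀ d ∈ {d : ℕ | ∃ (T : Finset (Fin n)) (e : Fin n → ℤˣ), CubeL L f T e ∧ T.card = d},
      d ≤ n := by
    rintro d ⟨T, e, _, rfl⟩
    simpa using Finset.card_le_univ T
  have hbdd : BddAbove {d : ℕ | ∃ (T : Finset (Fin n)) (e : Fin n → ℤˣ),
      CubeL L f T e ∧ T.card = d} := ⟨n, hbd⟩
  have hmem := Nat.sSup_mem hne hbdd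
  have h1 : ∃ (T : Finset (Fin n)) (e : Fin n → ℤˣ), CubeL L f T e ∧ T.card = cubeDimL L f n := hmem
  have h2 : ∀ (T : Finset (Fin n)) (e : Fin n → ℤˣ), CubeL L f T e → T.card ≤ cubeDimL L f n :=
    fun T e h => le_csSup hbdd ⟨T, e, h, rfl⟩
  have h3 : cubeDimL L f n ≤ n := hbd _ hmem
  have hP : PL L f n = Fintype.card {e : Fin n → ℤˣ // OccursL L f e} := by
    unfold PL
    exact Nat.card_eq_fintype_card
  have h4 : 2 ^ cubeDimL L f n ≤ PL L f n := by
    obtain ⟨T, e, hT, hc⟩ := h1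
    have hcard : Fintype.card ({j // j ∈ T} → ℤˣ) = 2 ^ cubeDimL L f n := by
      rw [Fintype.card_fun, Fintype.card_coe, hc]
      rfl
    rw [← hcard, hP]
    refine Fintype.card_le_of_injective
      (fun g : {j // j ∈ T} → ℤˣ =>
        (⟨fun j => if h : j ∈ T then g ⟨j, h⟩ else e j, hT _ fun j hj => by
          show (if h : j ∈ T then g ⟨j, h⟩ else e j) = e j
          rw [dif_neg hj]⟩ : {e : Fin n → ℤˣ // OccursL L f e})) ?_
    intro g g' hgg
    funext j
    have h5 := congrFun (Subtype.ext_iff.1 hgg) j.1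
    have h6 : (if h : j.1 ∈ T then g ⟨j.1, h⟩ else e j.1) =
        (if h : j.1 ∈ T then g' ⟨j.1, h⟩ else e j.1) := h5
    rw [dif_pos j.2, dif_pos j.2] at h6
    exact h6
  have h5 : PL L f n ≤ 2 ^ n := by
    rw [hP]
    refine (Fintype.card_subtype_le _).trans ?_
    rw [Fintype.card_fun, Fintype.card_fin]
    exact le_of_eq rfl
  exact ⟨h1, h2, h3, h4, h5⟩

end Pool.Agent.K9h52.EG.CUB2_
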