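import Pool.Agent.K9h52.EG.Stm

/-!
# The entropy as a set function
-/

set_option autoImplicit false

namespace Pool.Agent.K9h52.EG.Ent_

open Finset H137.PFR Pool.Agent.K9h52.EG

theorem ent_unit_le {p : ℤˣ → ℝ} (hp : Law p) : ent p ≤ Real.log 2 := by
  have hu : (Finset.univ : Finset ℤˣ) = {1, -1} := by decide
  have h1 : p 1 + p (-1) = 1 := by
    have := hp.2
    rwa [hu, Finset.sum_pair (by decide)] at this
  have h2 : ent p = Real.negMulLog (p 1) + Real.negMulLog (p (-1)) := by
    unfold ent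
    rw [hu, Finset.sum_pair (by decide)]
  have h3 : p (-1) = 1 - p 1 := by linarith
  rw [h2, h3, ← Real.binEntropy_eq_negMulLog_add_negMulLog_one_sub]
  exact Real.binEntropy_le_log_two

theorem ent : S_ENT := by
  intro Ω _ w x hw
  refine ⟨?_, ?_, ?_, ?_⟩
  · -- empty
    unfold E
    rw [← H_unit hw]
    exact H_eq hw (fun _ => ()) (fun _ j => absurd j.2 (Finset.notMem_empty _)) (fun _ => rfl)
      (fun ω => funext fun j => absurd j.2 (Finset.notMem_empty _))
  · -- mono
    intro S T hST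
    unfold E
    exact H_comp_le hw (fun ω => (fun j : T => x ω (j : ℕ))) (fun v (j : S) => v ⟨j, hST j.2⟩)
  · -- submod
    intro S T
    unfold E
    have h1 := H_submod hw (fun ω => (fun j : S => x ω (j : ℕ))) (fun ω => (fun j : T => x ω (j : ℕ)))
      (fun ω => (fun j : (S ∩ T : Finset ℕ) => x ω (j : ℕ)))
    have h2 : H w (fun ω => (fun j : (S ∪ T : Finset ℕ) => x ω (j : ℕ))) ≤
        H w (fun ω => ((fun j : S => x ω (j : ℕ)), (fun j : T => x ω (j : ℕ)),
          (fun j : (S ∩ T : Finset ℕ) => x ω (j : ℕ)))) := by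
      have := H_comp_le hw (fun ω => ((fun j : S => x ω (j : ℕ)), (fun j : T => x ω (j : ℕ)),
          (fun j : (S ∩ T : Finset ℕ) => x ω (j : ℕ))))
        (fun v (j : (S ∪ T : Finset ℕ)) => if h : (j : ℕ) ∈ S then v.1 ⟨j, h⟩ else
          v.2.1 ⟨j, (Finset.mem_union.1 j.2).resolve_left h⟩)
      refine le_trans (le_of_eq ?_) this
      congr 1
      funext ω j
      split_ifs <;> rfl
    have h3 : H w (fun ω => ((fun j : S => x ω (j : ℕ)),
          (fun j : (S ∩ T : Finset ℕ) => x ω (j : ℕ)))) ≤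
        H w (fun ω => (fun j : S => x ω (j : ℕ))) :=
      H_comp_le hw (fun ω => (fun j : S => x ω (j : ℕ)))
        (fun v => (v, fun j : (S ∩ T : Finset ℕ) => v ⟨j, (Finset.mem_inter.1 j.2).1⟩))
    have h4 : H w (fun ω => ((fun j : T => x ω (j : ℕ)),
          (fun j : (S ∩ T : Finset ℕ) => x ω (j : ℕ)))) ≤
        H w (fun ω => (fun j : T => x ω (j : ℕ))) :=
      H_comp_le hw (fun ω => (fun j : T => x ω (j : ℕ)))
        (fun v => (v, fun j : (S ∩ T : Finset ℕ) => v ⟨j, (Finset.mem_inter.1 j.2).2⟩))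
    linarith
  · -- bit
    intro j S
    unfold E
    have h1 := H_subadd hw (fun ω => x ω j) (fun ω => (fun i : S => x ω (i : ℕ)))
    have h2 : H w (fun ω => (fun i : (insert j S : Finset ℕ) => x ω (i : ℕ))) ≤
        H w (fun ω => (x ω j, (fun i : S => x ω (i : ℕ)))) := by
      have := H_comp_le hw (fun ω => (x ω j, (fun i : S => x ω (i : ℕ))))
        (fun v (i : (insert j S : Finset ℕ)) => if h : (i : ℕ) ∈ S then v.2 ⟨i, h⟩ else v.1)
      refine le_trans (le_of_eq ?_) this
      congr 1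
      funext ω i
      split_ifs with h
      · rfl
      · rw [(Finset.mem_insert.1 i.2).resolve_right h]
    have h3 : H w (fun ω => x ω j) ≤ Real.log 2 := ent_unit_le (law_push hw _)
    linarith

end Pool.Agent.K9h52.EG.Ent_
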