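import Pool.Agent.K9h52.EG.Stm

/-!
Leaf FIN (helper51): from the bound for the entropy of a pattern in a residue class to the number of patterns.
-/

set_option autoImplicit false

namespace Pool.Agent.K9h52.EG.FIN_

open Finset H137.PFR Pool.Agent.K9h52.EG

lemma uu (s v : ℤˣ) : s * (s * v) = v := by
  rw [← mul_assoc, Int.units_mul_self, one_mul]

/-- the patterns `s • L` -/
def Ls (f : ℕ → ℤˣ) (n : ℕ) (s : ℤˣ) : Set (Fin n → ℤˣ) := {e | Occurs f (fun j => s * e j)}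

lemma Ls_cube (hC : S_CUB) (f : ℕ → ℤˣ) (n : ℕ) (s : ℤˣ) (T : Finset (Fin n)) (e : Fin n → ℤˣ)
    (h : ∀ e' : Fin n → ℤˣ, (∀ j, j ∉ T → e' j = e j) → e' ∈ Ls f n s) : T.card ≤ cubeDim f n := by
  refine (hC f n).2.1 T (fun j => s * e j) ?_
  intro e'' he''
  have h1 := h (fun j => s * e'' j) (fun j hj => by
    show s * e'' j = e j
    rw [he'' j hj, uu])
  have h2 : (fun j => s * (s * e'' j)) = e'' := by
    funext j
    exact uu _ _
  have h3 : Occurs f (fun j => s * (s * e'' j)) := h1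
  rwa [h2] at h3

open Classical in
/-- the patterns of length `N` which occur at some `m ≥ G` with `m + 1 ≡ ρ` modulo `Q` -/
noncomputable def W (f : ℕ → ℤˣ) (G Q N ρ : ℕ) : Finset (Fin N → ℤˣ) :=
  Finset.univ.filter fun e => ∃ m : ℕ, G ≤ m ∧ (m + 1) % Q = ρ ∧ ∀ j : Fin N, f (m + j + 1) = e j

lemma W_card {f : ℕ → ℤˣ} (hf : Multiplicative f) {n D : ℕ} (hn : 1 ≤ n)
    (hL : ∀ (s : ℤˣ) (T : Finset (Fin n)) (e : Fin n → ℤˣ),
      (∀ e' : Fin n → ℤˣ, (∀ j, j ∉ T → e' j = e j) → e' ∈ Ls f n s) → T.card ≤ D)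
    {η C : ℝ}
    (hB : ∀ (L : Set (Fin n → ℤˣ)) (D : ℕ),
      (∀ (T : Finset (Fin n)) (e : Fin n → ℤˣ),
        (∀ e' : Fin n → ℤˣ, (∀ j, j ∉ T → e' j = e j) → e' ∈ L) → T.card ≤ D) →
      ∀ (Ω : Type) [Fintype Ω] (w : Ω → ℝ) (x : Ω → ℕ → ℤˣ), Law w →
        ∀ (F : Finset ℕ) (a p : ℕ), (∀ ω, w ω ≠ 0 → (fun t : Fin n => x ω (a + t * p)) ∈ L) →
          Blk (E w x) n D η C F a p)
    (hE : S_ENT) (hU : S_UNI) {δ : ℝ} {G N : ℕ}
    (hA : ∀ (r : ℕ) (E : Finset ℕ → ℝ), IsEnt E →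
      (∀ p : ℕ, p.Prime → p ≤ G → ∀ a : ℕ, p ∣ r + a → a + (n - 1) * p < N → ∀ F : Finset ℕ,
        Blk E n D η C F a p) →
      E (range N) ≤ (D / n + δ) * Real.log 2 * N)
    {Q : ℕ} (hQ : ∀ p : ℕ, p.Prime → p ≤ G → p ∣ Q) (ρ : ℕ) :
    ((W f G Q N ρ).card : ℝ) ≤ 2 ^ (((D : ℝ) / n + δ) * N) := by
  classical
  rcases (W f G Q N ρ).eq_empty_or_nonempty with h0 | h0
  · rw [h0, Finset.card_empty, Nat.cast_zero]
    positivity
  · haveI hne : Nonempty {e // e ∈ W f G Q N ρ} := h0.to_subtype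
    obtain ⟨x, hx⟩ : ∃ x : {e // e ∈ W f G Q N ρ} → ℕ → ℤˣ,
        x = fun ω j => if h : j < N then ω.1 ⟨j, h⟩ else 1 := ⟨_, rfl⟩
    have hxj : ∀ (ω : {e // e ∈ W f G Q N ρ}) (j : ℕ) (h : j < N), x ω j = ω.1 ⟨j, h⟩ := by
      intro ω j h
      rw [hx]
      exact dif_pos h
    obtain ⟨hlaw, hent⟩ := hU {e // e ∈ W f G Q N ρ} x (range N) (by
      intro ω ω' h
      apply Subtype.ext
      funext j
      have h1 := h j (mem_range.2 j.2)
      rw [hxj ω j j.2, hxj ω' j j.2] at h1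
      exact h1)
    have hmain := hA ρ _ (hE _ _ x hlaw) (by
      intro p hp hpG a hpa haN F
      refine hB (Ls f n (f p)) D (hL (f p)) _ _ x hlaw F a p ?_
      intro ω _
      obtain ⟨m, hGm, hmQ, hm⟩ := (Finset.mem_filter.1 ω.2).2
      have hp0 : 0 < p := hp.pos
      -- `p` divides `m + 1 + a`
      have hdiv : p ∣ m + 1 + a := by
        have h1 : p ∣ Q := hQ p hp hpG
        have h2 : m + 1 = Q * ((m + 1) / Q) + ρ := by
          rw [← hmQ]
          exact (Nat.div_add_mod (m + 1) Q).symm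
        rw [h2, add_assoc]
        exact (Nat.dvd_add_right (h1.mul_right _)).2 hpa
      obtain ⟨k, hk⟩ := hdiv
      have hk2 : 2 ≤ k := by
        by_contra hlt
        have : k ≤ 1 := by omega
        have h3 : p * k ≤ p * 1 := Nat.mul_le_mul_left p this
        omega
      obtain ⟨i, rfl⟩ : ∃ i, k = i + 1 := ⟨k - 1, by omega⟩
      refine ⟨i, by omega, ?_⟩
      intro t
      have ht : a + (t : ℕ) * p < N := by
        have h4 : (t : ℕ) ≤ n - 1 := by have := t.2; omega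
        have h5 : (t : ℕ) * p ≤ (n - 1) * p := Nat.mul_le_mul_right p h4
        omega
      show f (i + t + 1) = f p * x ω (a + t * p)
      rw [hxj ω _ ht, ← hm ⟨a + t * p, ht⟩]
      have h6 : m + (a + (t : ℕ) * p) + 1 = p * (i + t + 1) := by
        have : m + (a + (t : ℕ) * p) + 1 = (m + 1 + a) + t * p := by ring
        rw [this, hk]
        ring
      show f (i + t + 1) = f p * f (m + (a + (t : ℕ) * p) + 1)
      rw [h6, hf p (i + t + 1) hp (by omega), uu])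
    rw [hent] at hmain
    have hcard : (Fintype.card {e // e ∈ W f G Q N ρ} : ℝ) = ((W f G Q N ρ).card : ℝ) := by
      rw [Fintype.card_coe]
    rw [hcard] at hmain
    have hpos : (0 : ℝ) < ((W f G Q N ρ).card : ℝ) := by
      exact_mod_cast Finset.card_pos.2 h0
    calc ((W f G Q N ρ).card : ℝ) = Real.exp (Real.log ((W f G Q N ρ).card : ℝ)) :=
          (Real.exp_log hpos).symm
      _ ≤ Real.exp (Real.log 2 * (((D : ℝ) / n + δ) * N)) := by
          apply Real.exp_le_exp.2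
          calc _ ≤ _ := hmain
            _ = _ := by ring
      _ = _ := by rw [Real.rpow_def_of_pos (by norm_num)]

lemma count (f : ℕ → ℤˣ) (G N : ℕ) {Q : ℕ} (hQ : 0 < Q) :
    (P f N : ℝ) ≤ G + ∑ ρ ∈ range Q, ((W f G Q N ρ).card : ℝ) := by
  classical
  have h1 : P f N = (Finset.univ.filter fun e : Fin N → ℤˣ => Occurs f e).card := by
    unfold P
    rw [Nat.card_eq_fintype_card, Fintype.card_subtype]
  have h2 : (Finset.univ.filter fun e : Fin N → ℤˣ => Occurs f e) ⊆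
      (range G).image (fun m => fun j : Fin N => f (m + j + 1)) ∪
        (range Q).biUnion (fun ρ => W f G Q N ρ) := by
    intro e he
    obtain ⟨m, _, hm⟩ := (Finset.mem_filter.1 he).2
    rcases lt_or_ge m G with h | h
    · refine Finset.mem_union_left _ (Finset.mem_image.2 ⟨m, mem_range.2 h, ?_⟩)
      funext j
      exact hm j
    · refine Finset.mem_union_right _ (Finset.mem_biUnion.2 ⟨(m + 1) % Q,
        mem_range.2 (Nat.mod_lt _ hQ), ?_⟩)
      exact Finset.mem_filter.2 ⟨Finset.mem_univ _, m, h, rfl, hm⟩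
  have h3 : P f N ≤ G + ∑ ρ ∈ range Q, (W f G Q N ρ).card := by
    rw [h1]
    refine (Finset.card_le_card h2).trans ((Finset.card_union_le _ _).trans ?_)
    refine Nat.add_le_add ?_ Finset.card_biUnion_le
    exact Finset.card_image_le.trans (by rw [card_range])
  exact_mod_cast h3

/-- LEAF FIN -/
theorem fin (hA : S_ABS) (hB : S_BLK) (hE : S_ENT) (hU : S_UNI) (hC : S_CUB) : S_FIN := by
  intro f hf n hn δ hδ
  obtain ⟨η, hη, hA1⟩ := hA n (cubeDim f n) (δ / 2) hn (by positivity)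
  obtain ⟨C, hC0, hB1⟩ := hB n η hn hη
  obtain ⟨G, N₀, hA2⟩ := hA1 C hC0
  have hQ0 : 0 < G.factorial := Nat.factorial_pos G
  have hQ : ∀ p : ℕ, p.Prime → p ≤ G → p ∣ G.factorial := fun p hp hpG =>
    Nat.dvd_factorial hp.pos hpG
  have hS0 : (0 : ℝ) < (G : ℝ) + (G.factorial : ℝ) := by
    have : (0 : ℝ) < (G.factorial : ℝ) := by exact_mod_cast hQ0
    positivity
  refine ⟨max N₀ ⌈Real.logb 2 ((G : ℝ) + (G.factorial : ℝ)) * 2 / δ⌉₊, fun N hN => ?_⟩
  have hN0 : N₀ ≤ N := (le_max_left _ _).trans hN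
  have hN1 : Real.logb 2 ((G : ℝ) + (G.factorial : ℝ)) ≤ δ / 2 * N := by
    have h1 : Real.logb 2 ((G : ℝ) + (G.factorial : ℝ)) * 2 / δ ≤ (N : ℝ) :=
      (Nat.le_ceil _).trans (by exact_mod_cast (le_max_right _ _).trans hN)
    rw [div_le_iff₀ hδ] at h1
    linarith
  have hbig : (G : ℝ) + (G.factorial : ℝ) ≤ 2 ^ (δ / 2 * N) := by
    calc (G : ℝ) + (G.factorial : ℝ) = 2 ^ (Real.logb 2 ((G : ℝ) + (G.factorial : ℝ))) :=
          (Real.rpow_logb (by norm_num) (by norm_num) hS0).symm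
      _ ≤ _ := Real.rpow_le_rpow_of_exponent_le (by norm_num) hN1
  set A : ℝ := 2 ^ (((cubeDim f n : ℝ) / n + δ / 2) * N) with hAdef
  have hA1' : 1 ≤ A := by
    rw [hAdef]
    apply Real.one_le_rpow (by norm_num)
    positivity
  have hW : ∀ ρ, ((W f G G.factorial N ρ).card : ℝ) ≤ A := fun ρ =>
    W_card hf hn (Ls_cube hC f n) hB1 hE hU (hA2 N hN0) hQ ρ
  calc (P f N : ℝ) ≤ G + ∑ ρ ∈ range G.factorial, ((W f G G.factorial N ρ).card : ℝ) :=
        count f G N hQ0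
    _ ≤ G + ∑ _ρ ∈ range G.factorial, A := by
        gcongr with ρ _
        exact hW ρ
    _ = G * 1 + G.factorial * A := by rw [Finset.sum_const, card_range, nsmul_eq_mul, mul_one]
    _ ≤ G * A + G.factorial * A := by gcongr
    _ = ((G : ℝ) + (G.factorial : ℝ)) * A := by ring
    _ ≤ 2 ^ (δ / 2 * N) * A := by gcongr
    _ = _ := by
        rw [hAdef, ← Real.rpow_add (by norm_num)]
        congr 1
        ring

end Pool.Agent.K9h52.EG.FIN_
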