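import Pool.Agent.K9h52.EG.Stm2

/-!
Leaf FIN2 (helper17), after the leaf FIN (helper51): patterns that occur on a large set.
-/

set_option autoImplicit false

namespace Pool.Agent.K9h52.EG.FIN2_

open Finset H137.PFR Pool.Agent.K9h52.EG

lemma uu (s v : ℤˣ) : s * (s * v) = v := by
  rw [← mul_assoc, Int.units_mul_self, one_mul]

/-- the patterns `s • L` -/
def Ls (L : Set ℕ → Prop) (f : ℕ → ℤˣ) (n : ℕ) (s : ℤˣ) : Set (Fin n → ℤˣ) :=
  {e | OccursL L f (fun j => s * e j)}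

lemma Ls_cube (hC : S_CUB2) {L : Set ℕ → Prop} (hL : IsLarge L) (f : ℕ → ℤˣ) (n : ℕ) (s : ℤˣ)
    (T : Finset (Fin n)) (e : Fin n → ℤˣ)
    (h : ∀ e' : Fin n → ℤˣ, (∀ j, j ∉ T → e' j = e j) → e' ∈ Ls L f n s) :
    T.card ≤ cubeDimL L f n := by
  refine (hC L hL f n).2.1 T (fun j => s * e j) ?_
  intro e'' he''
  have h1 := h (fun j => s * e'' j) (fun j hj => by
    show s * e'' j = e j
    rw [he'' j hj, uu])
  have h2 : (fun j => s * (s * e'' j)) = e'' := by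
    funext j
    exact uu _ _
  have h3 : OccursL L f (fun j => s * (s * e'' j)) := h1
  rwa [h2] at h3

/-- the places `m ≥ 1` with `m + 1 ≡ ρ` modulo `Q` at which `e` occurs -/
def pl (f : ℕ → ℤˣ) (Q : ℕ) {N : ℕ} (e : Fin N → ℤˣ) (ρ : ℕ) : Set ℕ :=
  {m : ℕ | 1 ≤ m ∧ (m + 1) % Q = ρ ∧ ∀ j : Fin N, f (m + j + 1) = e j}

open Classical in
/-- the patterns of length `N` which occur at a large set of places `m` with `m + 1 ≡ ρ` modulo
`Q` -/
noncomputable def W (L : Set ℕ → Prop) (f : ℕ → ℤˣ) (Q N ρ : ℕ) : Finset (Fin N → ℤˣ) :=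
  Finset.univ.filter fun e => L (pl f Q e ρ)

lemma W_card {L : Set ℕ → Prop} (hLL : IsLarge L) {f : ℕ → ℤˣ} (hf : Multiplicative f) {n D : ℕ}
    (hn : 1 ≤ n)
    (hL : ∀ (s : ℤˣ) (T : Finset (Fin n)) (e : Fin n → ℤˣ),
      (∀ e' : Fin n → ℤˣ, (∀ j, j ∉ T → e' j = e j) → e' ∈ Ls L f n s) → T.card ≤ D)
    {η C : ℝ}
    (hB : ∀ (L : Set (Fin n → ℤˣ)) (D : ℕ),
      (∀ (T : Finset (Fin n)) (e : Fin n → ℤˣ),
        (∀ e' : Fin n → ℤˣ, (∀ j, j ∉ T → e' j = e j) → e' ∈ L) → T.card ≤ D) →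
      ∀ (Ω : Type) [Fintype Ω] (w : Ω → ℝ) (x : Ω → ℕ → ℤˣ), Law w →
        ∀ (F : Finset ℕ) (a p : ℕ), (∀ ω, w ω ≠ 0 → (fun t : Fin n => x ω (a + t * p)) ∈ L) →
          Blk (E w x) n D η C F a p)
    (hE : S_ENT) (hU : S_UNI) {δ : ℝ} {G N : ℕ}
    (hA : ∀ (r : ℕ) (E : Finset ℕ → ℝ), IsEnt E →
      (∀ p : ℕ, p.Prime → p ≤ G → ∀ a : ℕ, p ∣ r + a → a + (n - 1) * p < N → ∀ F : Finset ℕ,
        Blk E n D η C F a p) →
      E (range N) ≤ (D / n + δ) * Real.log 2 * N)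
    {Q : ℕ} (hQ : ∀ p : ℕ, p.Prime → p ≤ G → p ∣ Q) (ρ : ℕ) :
    ((W L f Q N ρ).card : ℝ) ≤ 2 ^ (((D : ℝ) / n + δ) * N) := by
  classical
  rcases (W L f Q N ρ).eq_empty_or_nonempty with h0 | h0
  · rw [h0, Finset.card_empty, Nat.cast_zero]
    positivity
  · haveI hne : Nonempty {e // e ∈ W L f Q N ρ} := h0.to_subtype
    obtain ⟨x, hx⟩ : ∃ x : {e // e ∈ W L f Q N ρ} → ℕ → ℤˣ,
        x = fun ω j => if h : j < N then ω.1 ⟨j, h⟩ else 1 := ⟨_, rfl⟩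
    have hxj : ∀ (ω : {e // e ∈ W L f Q N ρ}) (j : ℕ) (h : j < N), x ω j = ω.1 ⟨j, h⟩ := by
      intro ω j h
      rw [hx]
      exact dif_pos h
    obtain ⟨hlaw, hent⟩ := hU {e // e ∈ W L f Q N ρ} x (range N) (by
      intro ω ω' h
      apply Subtype.ext
      funext j
      have h1 := h j (mem_range.2 j.2)
      rw [hxj ω j j.2, hxj ω' j j.2] at h1
      exact h1)
    have hmain := hA ρ _ (hE _ _ x hlaw) (by
      intro p hp hpG a hpa haN F
      refine hB (Ls L f n (f p)) D (hL (f p)) _ _ x hlaw F a p ?_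
      intro ω _
      have hω : L (pl f Q ω.1 ρ) := (Finset.mem_filter.1 ω.2).2
      -- `p` divides `m + 1 + a`
      have hdiv : ∀ m ∈ pl f Q ω.1 ρ, p ∣ m + 1 + a := by
        rintro m ⟨-, hmQ, -⟩
        have h1 : p ∣ Q := hQ p hp hpG
        have h2 : m + 1 = Q * ((m + 1) / Q) + ρ := by
          rw [← hmQ]
          exact (Nat.div_add_mod (m + 1) Q).symm
        rw [h2, add_assoc]
        exact (Nat.dvd_add_right (h1.mul_right _)).2 hpa
      refine hLL.mono _ _ ?_ (hLL.dil p a _ hp hω hdiv)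
      rintro i ⟨hi, m, ⟨-, -, hm⟩, hk⟩
      refine ⟨hi, ?_⟩
      intro t
      have ht : a + (t : ℕ) * p < N := by
        have h4 : (t : ℕ) ≤ n - 1 := by have := t.2; omega
        have h5 : (t : ℕ) * p ≤ (n - 1) * p := Nat.mul_le_mul_right p h4
        omega
      show f (i + t + 1) = f p * x ω (a + t * p)
      rw [hxj ω _ ht, ← hm ⟨a + t * p, ht⟩]
      have h6 : m + (a + (t : ℕ) * p) + 1 = p * (i + t + 1) := by
        have : m + (a + (t : ℕ) * p) + 1 = (m + 1 + a) + t * p := by ring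
        rw [this, hk]
        ring
      show f (i + t + 1) = f p * f (m + (a + (t : ℕ) * p) + 1)
      rw [h6, hf p (i + t + 1) hp (by omega), uu])
    rw [hent] at hmain
    have hcard : (Fintype.card {e // e ∈ W L f Q N ρ} : ℝ) = ((W L f Q N ρ).card : ℝ) := by
      rw [Fintype.card_coe]
    rw [hcard] at hmain
    have hpos : (0 : ℝ) < ((W L f Q N ρ).card : ℝ) := by
      exact_mod_cast Finset.card_pos.2 h0
    calc ((W L f Q N ρ).card : ℝ) = Real.exp (Real.log ((W L f Q N ρ).card : ℝ)) :=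
          (Real.exp_log hpos).symm
      _ ≤ Real.exp (Real.log 2 * (((D : ℝ) / n + δ) * N)) := by
          apply Real.exp_le_exp.2
          calc _ ≤ _ := hmain
            _ = _ := by ring
      _ = _ := by rw [Real.rpow_def_of_pos (by norm_num)]

/-- finite unions -/
lemma exists_of_union {L : Set ℕ → Prop} (hL : IsLarge L) (A : ℕ → Set ℕ) (Q : ℕ) :
    L {m | ∃ ρ < Q, m ∈ A ρ} → ∃ ρ < Q, L (A ρ) := by
  induction Q with
  | zero =>
    intro h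
    refine absurd ?_ hL.empty
    convert h using 1
    ext m
    simp
  | succ Q ih =>
    intro h
    have h1 : {m | ∃ ρ < Q + 1, m ∈ A ρ} ⊆ {m | ∃ ρ < Q, m ∈ A ρ} ∪ A Q := by
      rintro m ⟨ρ, hρ, hm⟩
      rcases Nat.lt_succ_iff_lt_or_eq.1 hρ with h2 | h2
      · exact Or.inl ⟨ρ, h2, hm⟩
      · rw [h2] at hm
        exact Or.inr hm
    rcases hL.union _ _ (hL.mono _ _ h1 h) with h2 | h2
    · obtain ⟨ρ, hρ, h3⟩ := ih h2
      exact ⟨ρ, hρ.trans (Nat.lt_succ_self Q), h3⟩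
    · exact ⟨Q, Nat.lt_succ_self Q, h2⟩

lemma count {L : Set ℕ → Prop} (hL : IsLarge L) (f : ℕ → ℤˣ) (N : ℕ) {Q : ℕ} (hQ : 0 < Q) :
    (PL L f N : ℝ) ≤ ∑ ρ ∈ range Q, ((W L f Q N ρ).card : ℝ) := by
  classical
  have h1 : PL L f N = (Finset.univ.filter fun e : Fin N → ℤˣ => OccursL L f e).card := by
    unfold PL
    rw [Nat.card_eq_fintype_card, Fintype.card_subtype]
  have h2 : (Finset.univ.filter fun e : Fin N → ℤˣ => OccursL L f e) ⊆
      (range Q).biUnion (fun ρ => W L f Q N ρ) := by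
    intro e he
    have h3 : L {m : ℕ | 1 ≤ m ∧ ∀ j : Fin N, f (m + j + 1) = e j} := (Finset.mem_filter.1 he).2
    obtain ⟨ρ, hρ, h4⟩ := exists_of_union hL (pl f Q e) Q (hL.mono _ _ (by
      rintro m ⟨hm1, hm2⟩
      exact ⟨(m + 1) % Q, Nat.mod_lt _ hQ, hm1, rfl, hm2⟩) h3)
    exact Finset.mem_biUnion.2 ⟨ρ, mem_range.2 hρ, Finset.mem_filter.2 ⟨Finset.mem_univ _, h4⟩⟩
  have h3 : PL L f N ≤ ∑ ρ ∈ range Q, (W L f Q N ρ).card := by
    rw [h1]
    exact (Finset.card_le_card h2).trans Finset.card_biUnion_le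
  exact_mod_cast h3

end Pool.Agent.K9h52.EG.FIN2_

namespace Pool.Agent.K9h52.EG

open Finset H137.PFR FIN2_

/-- LEAF FIN2 -/
theorem fin2 (hA : S_ABS) (hB : S_BLK) (hE : S_ENT) (hU : S_UNI) (hC : S_CUB2) : S_FIN2 := by
  intro L hL f hf n hn δ hδ
  obtain ⟨η, hη, hA1⟩ := hA n (cubeDimL L f n) (δ / 2) hn (by positivity)
  obtain ⟨C, hC0, hB1⟩ := hB n η hn hη
  obtain ⟨G, N₀, hA2⟩ := hA1 C hC0
  have hQ0 : 0 < G.factorial := Nat.factorial_pos G
  have hQ : ∀ p : ℕ, p.Prime → p ≤ G → p ∣ G.factorial := fun p hp hpG =>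
    Nat.dvd_factorial hp.pos hpG
  have hS0 : (0 : ℝ) < (G.factorial : ℝ) := by exact_mod_cast hQ0
  refine ⟨max N₀ ⌈Real.logb 2 (G.factorial : ℝ) * 2 / δ⌉₊, fun N hN => ?_⟩
  have hN0 : N₀ ≤ N := (le_max_left _ _).trans hN
  have hN1 : Real.logb 2 (G.factorial : ℝ) ≤ δ / 2 * N := by
    have h1 : Real.logb 2 (G.factorial : ℝ) * 2 / δ ≤ (N : ℝ) :=
      (Nat.le_ceil _).trans (by exact_mod_cast (le_max_right _ _).trans hN)
    rw [div_le_iff₀ hδ] at h1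
    linarith
  have hbig : (G.factorial : ℝ) ≤ 2 ^ (δ / 2 * N) := by
    calc (G.factorial : ℝ) = 2 ^ (Real.logb 2 (G.factorial : ℝ)) :=
          (Real.rpow_logb (by norm_num) (by norm_num) hS0).symm
      _ ≤ _ := Real.rpow_le_rpow_of_exponent_le (by norm_num) hN1
  have hW : ∀ ρ, ((W L f G.factorial N ρ).card : ℝ) ≤
      2 ^ (((cubeDimL L f n : ℝ) / n + δ / 2) * N) := fun ρ =>
    W_card hL hf hn (Ls_cube hC hL f n) hB1 hE hU (hA2 N hN0) hQ ρ
  calc (PL L f N : ℝ) ≤ ∑ ρ ∈ range G.factorial, ((W L f G.factorial N ρ).card : ℝ) :=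
        count hL f N hQ0
    _ ≤ ∑ _ρ ∈ range G.factorial, (2 : ℝ) ^ (((cubeDimL L f n : ℝ) / n + δ / 2) * N) := by
        gcongr with ρ _
        exact hW ρ
    _ = (G.factorial : ℝ) * 2 ^ (((cubeDimL L f n : ℝ) / n + δ / 2) * N) := by
        rw [Finset.sum_const, card_range, nsmul_eq_mul]
    _ ≤ 2 ^ (δ / 2 * N) * 2 ^ (((cubeDimL L f n : ℝ) / n + δ / 2) * N) := by gcongr
    _ = _ := by
        rw [← Real.rpow_add (by norm_num)]
        congr 1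
        ring

end Pool.Agent.K9h52.EG
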