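import Pool.Agent.K9h52.EG.Stm

/-!
# Leaf LIM
-/

set_option autoImplicit false

namespace Pool.Agent.K9h52.EG.X_lim

open Finset H137.PFR Pool.Agent.K9h52.EG

/-- LEAF LIM -/
theorem lim (hF : S_FIN) (hC : S_CUB) : S_LIM := by
  intro f hf
  have hP : ∀ n : ℕ, (1 : ℝ) ≤ (P f n : ℝ) := by
    intro n
    have h1 := (hC f n).2.2.2.1
    have h2 : 1 ≤ P f n := le_trans (Nat.one_le_two_pow) h1
    exact_mod_cast h2
  have hc0 : ∀ n : ℕ, (0 : ℝ) ≤ (cubeDim f n : ℝ) / n := fun n => by positivity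
  have hc1 : ∀ n : ℕ, (cubeDim f n : ℝ) / n ≤ 1 := fun n => by
    rcases Nat.eq_zero_or_pos n with rfl | hn
    · simp
    · have h1 := (hC f n).2.2.1
      rw [div_le_one (by exact_mod_cast hn)]
      exact_mod_cast h1
  have hcu : ∀ n : ℕ, 1 ≤ n → (cubeDim f n : ℝ) / n ≤ Real.logb 2 (P f n) / n := by
    intro n hn
    have hn0 : (0 : ℝ) < n := by exact_mod_cast hn
    apply div_le_div_of_nonneg_right _ hn0.le
    rw [Real.le_logb_iff_rpow_le (by norm_num) (by have := hP n; linarith), Real.rpow_natCast]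
    exact_mod_cast (hC f n).2.2.2.1
  obtain ⟨h, hh⟩ : ∃ h : ℝ, h = ⨅ n : ℕ, (cubeDim f (n + 1) : ℝ) / ((n + 1 : ℕ) : ℝ) := ⟨_, rfl⟩
  have hbdd : BddBelow (Set.range fun n : ℕ => (cubeDim f (n + 1) : ℝ) / ((n + 1 : ℕ) : ℝ)) :=
    ⟨0, by rintro _ ⟨n, rfl⟩; exact hc0 (n + 1)⟩
  have hlow : ∀ n : ℕ, 1 ≤ n → h ≤ (cubeDim f n : ℝ) / n := by
    intro n hn
    obtain ⟨k, rfl⟩ : ∃ k, n = k + 1 := ⟨n - 1, by omega⟩
    rw [hh]
    exact ciInf_le hbdd k
  have hup : ∀ a : ℝ, h < a → ∀ᶠ N : ℕ in Filter.atTop, Real.logb 2 (P f N) / N < a := by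
    intro a ha
    obtain ⟨b, hb1, hb2⟩ := exists_between ha
    obtain ⟨k, hk⟩ : ∃ k : ℕ, (cubeDim f (k + 1) : ℝ) / ((k + 1 : ℕ) : ℝ) < b := by
      rw [hh] at hb1
      exact exists_lt_of_ciInf_lt hb1
    obtain ⟨N₀, hN₀⟩ := hF f hf (k + 1) (by omega) (a - b) (by linarith)
    filter_upwards [Filter.eventually_ge_atTop (max N₀ 1)] with N hN
    have hN1 : 1 ≤ N := (le_max_right _ _).trans hN
    have hN0 : (0 : ℝ) < N := by exact_mod_cast hN1
    have h1 := hN₀ N ((le_max_left _ _).trans hN)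
    have h2 : Real.logb 2 (P f N) ≤
        ((cubeDim f (k + 1) : ℝ) / ((k + 1 : ℕ) : ℝ) + (a - b)) * N := by
      rw [Real.logb_le_iff_le_rpow (by norm_num) (by have := hP N; linarith)]
      exact h1
    rw [div_lt_iff₀ hN0]
    refine h2.trans_lt ?_
    exact mul_lt_mul_of_pos_right (by linarith) hN0
  refine ⟨h, ?_, (hlow 1 le_rfl).trans (hc1 1), ?_, ?_, hlow⟩
  · rw [hh]
    exact le_ciInf fun n => hc0 (n + 1)
  · refine tendsto_order.2 ⟨fun a ha => ?_, hup⟩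
    filter_upwards [Filter.eventually_ge_atTop 1] with N hN
    exact (ha.trans_le (hlow N hN)).trans_le (hcu N hN)
  · refine tendsto_order.2 ⟨fun a ha => ?_, fun a ha => ?_⟩
    · filter_upwards [Filter.eventually_ge_atTop 1] with N hN
      exact ha.trans_le (hlow N hN)
    · filter_upwards [Filter.eventually_ge_atTop 1, hup a ha] with N hN h1
      exact (hcu N hN).trans_lt h1

end Pool.Agent.K9h52.EG.X_lim
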