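import Pool.Agent.K9h52.EG.Stm

/-!
# Leaf NU
-/

set_option autoImplicit false

namespace Pool.Agent.K9h52.EG.X_nu

open Finset H137.PFR Pool.Agent.K9h52.EG

open scoped Classical in
theorem sum_push {Ω α : Type*} [Fintype Ω] [Fintype α] (w : Ω → ℝ) (X : Ω → α) (g : α → ℝ) :
    ∑ a, push w X a * g a = ∑ ω, w ω * g (X ω) := by
  unfold push
  simp only [sum_mul, ite_mul, zero_mul]
  rw [sum_comm]
  apply sum_congr rfl
  intro ω _
  rw [sum_ite_eq]
  simp

theorem push_nonneg {Ω α : Type*} [Fintype Ω] {w : Ω → ℝ} (hw : ∀ x, 0 ≤ w x) (X : Ω → α) (a : α) :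
    0 ≤ push w X a := by
  unfold push
  apply sum_nonneg
  intro ω _
  split_ifs
  · exact hw ω
  · exact le_rfl

open scoped Classical in
theorem le_push {Ω α : Type*} [Fintype Ω] {w : Ω → ℝ} (hw : ∀ x, 0 ≤ w x) (X : Ω → α) (ω : Ω) :
    w ω ≤ push w X (X ω) := by
  unfold push
  have h := single_le_sum (s := univ) (f := fun ω' => if X ω' = X ω then w ω' else 0)
    (fun ω' _ => by
      show 0 ≤ if X ω' = X ω then w ω' else 0
      split_ifs
      · exact hw ω'
      · exact le_rfl) (mem_univ ω)
  simpa using h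

theorem sum_units (g : ℤˣ → ℝ) : ∑ a, g a = g 1 + g (-1) := by
  have h : (univ : Finset ℤˣ) = {1, -1} := by decide
  rw [h, sum_pair (by decide)]

theorem ent_bin {p : ℤˣ → ℝ} (hp : Law p) : ent p = Real.binEntropy (p 1) := by
  have h := hp.2
  rw [sum_units] at h
  unfold ent
  rw [sum_units, Real.binEntropy_eq_negMulLog_add_negMulLog_one_sub]
  congr 2
  linarith

theorem ent_bin' {p : ℤˣ → ℝ} (hp : Law p) : ent p = Real.binEntropy (p (-1)) := by
  have h := hp.2
  rw [sum_units] at h
  rw [ent_bin hp, ← Real.binEntropy_one_sub]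
  congr 1
  linarith

/-- product of the marginals -/
noncomputable def mu {n : ℕ} (ν : (Fin n → ℤˣ) → ℝ) (v : Fin n → ℤˣ) : ℝ :=
  ∏ t, push ν (fun u => u t) (v t)

theorem mu_nonneg {n : ℕ} {ν : (Fin n → ℤˣ) → ℝ} (hν : Law ν) (v : Fin n → ℤˣ) : 0 ≤ mu ν v :=
  prod_nonneg fun t _ => push_nonneg hν.1 _ _

theorem mu_sum {n : ℕ} {ν : (Fin n → ℤˣ) → ℝ} (hν : Law ν) : ∑ v, mu ν v = 1 := by
  have h := prod_univ_sum (fun _ : Fin n => (univ : Finset ℤˣ))
    (fun (t : Fin n) (a : ℤˣ) => push ν (fun u => u t) a)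
  rw [Fintype.piFinset_univ] at h
  unfold mu
  rw [← h]
  apply prod_eq_one
  intro t _
  exact (law_push hν _).2

/-- the total correlation -/
theorem tc_eq {n : ℕ} {ν : (Fin n → ℤˣ) → ℝ} :
    ∑ t, ent (push ν (fun v => v t)) - ent ν =
      ∑ v, ν v * (Real.log (ν v) - ∑ t, Real.log (push ν (fun u => u t) (v t))) := by
  have h1 : ∀ t, ent (push ν (fun v => v t)) =
      ∑ v, ν v * (-Real.log (push ν (fun u => u t) (v t))) := by
    intro t
    rw [← sum_push ν (fun v => v t) (fun a => -Real.log (push ν (fun u => u t) a))]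
    unfold ent
    apply sum_congr rfl
    intro a _
    unfold Real.negMulLog
    ring
  simp only [h1]
  rw [sum_comm]
  unfold ent
  rw [← sum_sub_distrib]
  apply sum_congr rfl
  intro v _
  rw [← mul_sum, sum_neg_distrib]
  unfold Real.negMulLog
  ring

theorem tc_ge {n : ℕ} {ν : (Fin n → ℤˣ) → ℝ} (hν : Law ν) :
    ∑ v, (if ν v = 0 then mu ν v else 0) ≤ ∑ t, ent (push ν (fun v => v t)) - ent ν := by
  rw [tc_eq]
  have h1 : ∑ v, (if ν v = 0 then mu ν v else 0)
      = ∑ v, (ν v - (if ν v = 0 then 0 else mu ν v)) := by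
    rw [sum_sub_distrib, hν.2]
    have h2 : ∑ v, (if ν v = 0 then mu ν v else 0) + ∑ v, (if ν v = 0 then 0 else mu ν v) = 1 := by
      rw [← sum_add_distrib, ← mu_sum hν]
      apply sum_congr rfl
      intro v _
      split_ifs <;> ring
    linarith
  rw [h1]
  apply sum_le_sum
  intro v _
  by_cases hv : ν v = 0
  · simp [hv]
  · rw [if_neg hv]
    have hpos : 0 < ν v := lt_of_le_of_ne (hν.1 v) (Ne.symm hv)
    have hp : ∀ t, 0 < push ν (fun u => u t) (v t) := fun t =>
      hpos.trans_le (le_push hν.1 (fun u : Fin n → ℤˣ => u t) v)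
    have hmu : 0 < mu ν v := prod_pos fun t _ => hp t
    have hl : ∑ t, Real.log (push ν (fun u => u t) (v t)) = Real.log (mu ν v) := by
      unfold mu
      rw [Real.log_prod (fun t _ => (hp t).ne')]
    rw [hl]
    have h3 := Real.log_le_sub_one_of_pos (div_pos hmu hpos)
    rw [Real.log_div hmu.ne' hpos.ne'] at h3
    have h4 : ν v * (Real.log (mu ν v) - Real.log (ν v)) ≤ ν v * (mu ν v / ν v - 1) :=
      mul_le_mul_of_nonneg_left h3 hpos.le
    have h5 : ν v * (mu ν v / ν v - 1) = mu ν v - ν v := by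
      field_simp
    rw [h5] at h4
    linarith

/-- LEAF NU -/
theorem nu : S_NU := by
  intro n η hn hη
  have hn0 : (0 : ℝ) < n := by exact_mod_cast hn
  obtain ⟨β, hβ0, hβ2, hβ⟩ : ∃ β : ℝ, 0 < β ∧ β ≤ 1 / 2 ∧
      ∀ a : ℝ, 0 ≤ a → a ≤ β → Real.binEntropy a ≤ η / n := by
    have hc := Real.binEntropy_continuous.tendsto 0
    rw [Real.binEntropy_zero] at hc
    have h1 := hc.eventually (gt_mem_nhds (show (0 : ℝ) < η / n by positivity))
    obtain ⟨δ, hδ, h2⟩ := Metric.eventually_nhds_iff.1 h1
    refine ⟨min (δ / 2) (1 / 2), by positivity, min_le_right _ _, fun a ha0 ha => ?_⟩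
    refine (h2 ?_).le
    rw [Real.dist_eq, sub_zero, abs_of_nonneg ha0]
    have := ha.trans (min_le_left _ _)
    linarith
  have hlog2 : 0 < Real.log 2 := Real.log_pos (by norm_num)
  refine ⟨n * Real.log 2 / β ^ n, by positivity, ?_⟩
  intro L D hL ν hν hsupp
  have hlaw : ∀ t : Fin n, Law (push ν (fun v => v t)) := fun t => law_push hν _
  have hone : ∀ t : Fin n, push ν (fun v => v t) 1 + push ν (fun v => v t) (-1) = 1 := by
    intro t
    have := (hlaw t).2
    rwa [sum_units] at this
  have htc := tc_ge hν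
  have htc0 : 0 ≤ ∑ t, ent (push ν (fun v => v t)) - ent ν := by
    refine le_trans ?_ htc
    apply sum_nonneg
    intro v _
    split_ifs
    · exact mu_nonneg hν v
    · exact le_rfl
  have hent2 : ∀ t : Fin n, ent (push ν (fun v => v t)) ≤ Real.log 2 := by
    intro t
    rw [ent_bin (hlaw t)]
    exact Real.binEntropy_le_log_two
  classical
  obtain ⟨T, hT⟩ : ∃ T : Finset (Fin n), T = univ.filter fun t : Fin n =>
      β < push ν (fun v => v t) 1 ∧ β < push ν (fun v => v t) (-1) := ⟨_, rfl⟩
  have hC : 0 ≤ n * Real.log 2 / β ^ n := by positivity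
  by_cases hTD : T.card ≤ D
  · have h1 : ∀ t : Fin n, ent (push ν (fun v => v t)) ≤
        (if t ∈ T then Real.log 2 else 0) + η / n := by
      intro t
      by_cases ht : t ∈ T
      · rw [if_pos ht]
        have := hent2 t
        have : 0 < η / n := by positivity
        linarith [hent2 t]
      · rw [if_neg ht, zero_add]
        rw [hT, mem_filter] at ht
        have h2 : ¬ (β < push ν (fun v => v t) 1 ∧ β < push ν (fun v => v t) (-1)) :=
          fun h => ht ⟨mem_univ _, h⟩
        by_cases h3 : β < push ν (fun v => v t) 1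
        · have h4 : push ν (fun v => v t) (-1) ≤ β := by
            by_contra h5
            exact h2 ⟨h3, not_le.1 h5⟩
          rw [ent_bin' (hlaw t)]
          exact hβ _ (push_nonneg hν.1 _ _) h4
        · rw [ent_bin (hlaw t)]
          exact hβ _ (push_nonneg hν.1 _ _) (not_lt.1 h3)
    have h2 : ∑ t, ent (push ν (fun v => v t)) ≤ T.card * Real.log 2 + η := by
      refine (sum_le_sum fun t _ => h1 t).trans (le_of_eq ?_)
      rw [sum_add_distrib, sum_ite_mem, univ_inter, sum_const, sum_const, card_univ,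
        Fintype.card_fin, nsmul_eq_mul, nsmul_eq_mul]
      field_simp
    have h3 : (T.card : ℝ) * Real.log 2 ≤ D * Real.log 2 :=
      mul_le_mul_of_nonneg_right (by exact_mod_cast hTD) hlog2.le
    have h4 := mul_nonneg hC htc0
    linarith
  · -- a value which is not taken
    have hex : ∀ t : Fin n, ∃ a : ℤˣ, 1 / 2 ≤ push ν (fun v => v t) a := by
      intro t
      by_cases h : 1 / 2 ≤ push ν (fun v => v t) 1
      · exact ⟨1, h⟩
      · refine ⟨-1, ?_⟩
        have := hone t
        linarith
    choose e he using hex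
    obtain ⟨v, hv1, hv2⟩ : ∃ v : Fin n → ℤˣ, (∀ j, j ∉ T → v j = e j) ∧ v ∉ L := by
      by_contra hcon
      push Not at hcon
      exact hTD (hL T e hcon)
    have hv0 : ν v = 0 := by
      by_contra h
      exact hv2 (hsupp v h)
    have hmu : β ^ n ≤ mu ν v := by
      have h1 : β ^ n = ∏ _t : Fin n, β := by
        rw [prod_const, card_univ, Fintype.card_fin]
      rw [h1]
      unfold mu
      apply prod_le_prod
      · intro t _; exact hβ0.le
      · intro t _
        by_cases ht : t ∈ T
        · rw [hT, mem_filter] at ht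
          rcases Int.units_eq_one_or (v t) with h | h
          · rw [h]; exact ht.2.1.le
          · rw [h]; exact ht.2.2.le
        · rw [hv1 t ht]
          exact hβ2.trans (he t)
    have h2 : mu ν v ≤ ∑ t, ent (push ν (fun v => v t)) - ent ν := by
      refine le_trans ?_ htc
      have h3 := single_le_sum (s := univ) (f := fun v => if ν v = 0 then mu ν v else 0)
        (fun u _ => by
          show 0 ≤ if ν u = 0 then mu ν u else 0
          split_ifs
          · exact mu_nonneg hν u
          · exact le_rfl) (mem_univ v)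
      simp only [hv0, if_true] at h3
      exact h3
    have h3 : ∑ t, ent (push ν (fun v => v t)) ≤ n * Real.log 2 := by
      refine (sum_le_sum fun t _ => hent2 t).trans (le_of_eq ?_)
      rw [sum_const, card_univ, Fintype.card_fin, nsmul_eq_mul]
    have h4 : n * Real.log 2 ≤ n * Real.log 2 / β ^ n *
        (∑ t, ent (push ν (fun v => v t)) - ent ν) := by
      have h5 : n * Real.log 2 / β ^ n * β ^ n ≤ n * Real.log 2 / β ^ n *
        (∑ t, ent (push ν (fun v => v t)) - ent ν) :=
        mul_le_mul_of_nonneg_left (hmu.trans h2) hC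
      rwa [div_mul_cancel₀ _ (by positivity)] at h5
    have h5 : 0 ≤ (D : ℝ) * Real.log 2 := by positivity
    linarith

end Pool.Agent.K9h52.EG.X_nu
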