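import Pool.Agent.K9h52.EG.Stm

/-! # LEAF PR: the sum of the reciprocals of the primes diverges (helper30) -/

set_option autoImplicit false

namespace Pool.Agent.K9h52.EG

open Finset

theorem pr : S_PR := by
  intro g S
  have h1 : ¬ Summable (Set.indicator {p : ℕ | p.Prime} (fun n : ℕ => (1 : ℝ) / n)) :=
    not_summable_one_div_on_primes
  have hnn : ∀ n : ℕ, 0 ≤ Set.indicator {p : ℕ | p.Prime} (fun n : ℕ => (1 : ℝ) / n) n := by
    intro n
    apply Set.indicator_nonneg
    intro x _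
    positivity
  have h2 := (not_summable_iff_tendsto_nat_atTop_of_nonneg hnn).mp h1
  have h3 := (Filter.tendsto_atTop.mp h2 (S + (g + 1))).exists_forall_of_atTop
  obtain ⟨a, ha⟩ := h3
  refine ⟨max a (g + 1), by omega, ?_⟩
  have h4 := ha (max a (g + 1) + 1) (by omega)
  set G := max a (g + 1) with hG
  have h5 : ∑ n ∈ range (G + 1), Set.indicator {p : ℕ | p.Prime} (fun n : ℕ => (1 : ℝ) / n) n =
      ∑ p ∈ (range (G + 1)).filter Nat.Prime, 1 / (p : ℝ) := by
    rw [sum_filter]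
    refine sum_congr rfl fun n _ => ?_
    rw [Set.indicator_apply]
    rfl
  rw [h5] at h4
  have h6 : (range (G + 1)).filter Nat.Prime ⊆ range (g + 1) ∪ (Ioc g G).filter Nat.Prime := by
    intro p hp
    rw [mem_filter, mem_range] at hp
    rw [mem_union, mem_range, mem_filter, mem_Ioc]
    by_cases h : p < g + 1
    · exact Or.inl h
    · exact Or.inr ⟨⟨by omega, by omega⟩, hp.2⟩
  have h7 : ∑ p ∈ (range (G + 1)).filter Nat.Prime, 1 / (p : ℝ) ≤
      ∑ p ∈ range (g + 1) ∪ (Ioc g G).filter Nat.Prime, 1 / (p : ℝ) :=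
    sum_le_sum_of_subset_of_nonneg h6 fun p _ _ => by positivity
  have h8 : ∑ p ∈ range (g + 1) ∪ (Ioc g G).filter Nat.Prime, 1 / (p : ℝ) ≤
      ∑ p ∈ range (g + 1), 1 / (p : ℝ) + ∑ p ∈ (Ioc g G).filter Nat.Prime, 1 / (p : ℝ) := by
    rw [← sum_union_inter]
    have : 0 ≤ ∑ p ∈ range (g + 1) ∩ (Ioc g G).filter Nat.Prime, 1 / (p : ℝ) :=
      sum_nonneg fun p _ => by positivity
    linarith
  have h9 : ∑ p ∈ range (g + 1), 1 / (p : ℝ) ≤ g + 1 := by
    calc ∑ p ∈ range (g + 1), 1 / (p : ℝ) ≤ ∑ p ∈ range (g + 1), (1 : ℝ) := by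
          refine sum_le_sum fun p _ => ?_
          rcases Nat.eq_zero_or_pos p with rfl | h
          · simp
          · rw [div_le_one (by exact_mod_cast h)]
            exact_mod_cast h
      _ = g + 1 := by simp
  linarith

end Pool.Agent.K9h52.EG
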