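import Pool.Agent.H137R2.PFR.Basic

/-!
# Entropy and cubes of patterns of completely multiplicative functions with values `1`, `-1`

For `f : ℕ → {1, -1}` with `f (p m) = f p f m` for all primes `p` let `P f N` be the number of patterns of length `N` and
`cubeDim f n` the largest dimension of a cube of patterns of length `n` all of which occur.  We prove
`P f N ≤ 2 ^ ((cubeDim f n / n + δ) N)` for large `N`.

Proof. Let `W` be a random pattern of length `N`, uniform among those that occur at places in one residue class modulo the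
product of the primes up to `G`. Put `h x = H(W_x | W_y, y < x)`. For a prime `p` the subword of `W` on the multiples of
`p` consists of patterns `± f`. If `p` lies between two scales `g < p ≤ G`, `g' ≥ 2 n G`, then, conditioned on
`F = (W_y)_{y < d_n - g'}`, the bits at `d_1 < … < d_n = d_1 + (n-1) p` have total correlation at most
`∑ (H(W_x | W_y, y < x - g') - H(W_x | W_y, y < x - g))`, which is small on average for one of many scales.  Random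
variables with small total correlation and support without cubes of dimension `> D` have total entropy at most
`D log 2 + small`.  Average over `p` (Turan-Kubilius).
-/

set_option autoImplicit false

namespace Pool.Agent.K9h52.EG

open Finset H137.PFR

/-- `f (p m) = f p f m` for all primes `p` and all `m ≥ 1` -/
def Multiplicative (f : ℕ → ℤˣ) : Prop := ∀ p m : ℕ, p.Prime → 1 ≤ m → f (p * m) = f p * f m

/-- the pattern `e` occurs in `f` -/
def Occurs (f : ℕ → ℤˣ) {n : ℕ} (e : Fin n → ℤˣ) : Prop :=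
  ∃ m : ℕ, 1 ≤ m ∧ ∀ j : Fin n, f (m + j + 1) = e j

/-- the number of the patterns of length `n` that occur in `f` -/
noncomputable def P (f : ℕ → ℤˣ) (n : ℕ) : ℕ := Nat.card {e : Fin n → ℤˣ // Occurs f e}

/-- all the patterns which agree with `e` outside `T` occur in `f` -/
def Cube (f : ℕ → ℤˣ) {n : ℕ} (T : Finset (Fin n)) (e : Fin n → ℤˣ) : Prop :=
  ∀ e' : Fin n → ℤˣ, (∀ j, j ∉ T → e' j = e j) → Occurs f e'

/-- the largest dimension of a cube of patterns of length `n` that occur in `f` -/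
noncomputable def cubeDim (f : ℕ → ℤˣ) (n : ℕ) : ℕ :=
  sSup {d : ℕ | ∃ (T : Finset (Fin n)) (e : Fin n → ℤˣ), Cube f T e ∧ T.card = d}

/-! ### Entropy as a set function -/

/-- the entropy of `(x j)_{j ∈ S}` under the weights `w` -/
noncomputable def E {Ω : Type} [Fintype Ω] (w : Ω → ℝ) (x : Ω → ℕ → ℤˣ) (S : Finset ℕ) : ℝ :=
  H w (fun ω => (fun j : S => x ω (j : ℕ)))

/-- properties of the entropy as a function of the set of places -/
structure IsEnt (E : Finset ℕ → ℝ) : Prop where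
  empty : E ∅ = 0
  mono : ∀ S T : Finset ℕ, S ⊆ T → E S ≤ E T
  submod : ∀ S T : Finset ℕ, E (S ∪ T) + E (S ∩ T) ≤ E S + E T
  bit : ∀ (j : ℕ) (S : Finset ℕ), E (insert j S) ≤ E S + Real.log 2

/-- LEAF ENT. Use `H_comp_le`, `H_submod`, `H_unit`, `H_eq`, `ent` of a law on `ℤˣ` at most `log 2` (e.g.
`H137.PFR.ent_le_log_card` in `Pool.Agent.H137R2.PFR.ExistsMin` or wherever it is), `H_subadd`. -/
def S_ENT : Prop := ∀ (Ω : Type) [Fintype Ω] (w : Ω → ℝ) (x : Ω → ℕ → ℤˣ), Law w → IsEnt (E w x)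

/-- LEAF UNI. Uniform weights, `x` injective on `S`: the entropy is `log |Ω|`. -/
def S_UNI : Prop := ∀ (Ω : Type) [Fintype Ω] [Nonempty Ω] (x : Ω → ℕ → ℤˣ) (S : Finset ℕ),
  (∀ ω ω' : Ω, (∀ j ∈ S, x ω j = x ω' j) → ω = ω') →
    Law (fun _ : Ω => 1 / (Fintype.card Ω : ℝ)) ∧
    E (fun _ : Ω => 1 / (Fintype.card Ω : ℝ)) x S = Real.log (Fintype.card Ω)

/-- LEAF NU. A law `ν` on `{1,-1}^n` whose support lies in `L`, where `L` contains no cube of dimension `> D`.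

Proof. Given `η > 0` choose `0 < β ≤ 1/2` with `negMulLog a + negMulLog (1 - a) ≤ η / n` for `0 ≤ a ≤ β` (continuity at 0) and
`C = n log 2 / β ^ n`.  Let `ν_t = push ν (· t)` be the marginals, `μ v = ∏_t ν_t (v t)` and
`TC = ∑_t ent ν_t - ent ν = ∑_v ν v log (ν v / μ v)`.
(1) If `ν v₀ = 0` then `TC ≥ μ v₀`: on the support of `ν` (there `μ v ≥ ... > 0`, because `ν v ≤ ν_t (v t)`) use
`log x ≥ 1 - 1/x`: `ν log (ν/μ) ≥ ν - μ`, so `TC ≥ 1 - ∑_{v in supp ν} μ v ≥ μ v₀` (`μ` is a law). In particular `TC ≥ 0`.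
(2) Let `T = {t : β < ν_t (1) and β < ν_t (-1)}`. If `|T| ≤ D`: for `t ∉ T` the entropy of `ν_t` is at most `η / n`, the
others are at most `log 2`. If `|T| > D`: take `e t` = a value with `ν_t (e t) ≥ 1/2`; by hypothesis there is `v ∉ L`,
equal to `e` outside `T`, so `ν v = 0`, `TC ≥ μ v ≥ β ^ n` and `∑_t ent ν_t ≤ n log 2 ≤ C TC`. -/
def S_NU : Prop := ∀ (n : ℕ) (η : ℝ), 1 ≤ n → 0 < η → ∃ C : ℝ, 0 < C ∧
  ∀ (L : Set (Fin n → ℤˣ)) (D : ℕ),
    (∀ (T : Finset (Fin n)) (e : Fin n → ℤˣ),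
      (∀ e' : Fin n → ℤˣ, (∀ j, j ∉ T → e' j = e j) → e' ∈ L) → T.card ≤ D) →
    ∀ ν : (Fin n → ℤˣ) → ℝ, Law ν → (∀ v, ν v ≠ 0 → v ∈ L) →
      ∑ t, ent (push ν (fun v => v t)) ≤
        D * Real.log 2 + η + C * (∑ t, ent (push ν (fun v => v t)) - ent ν)

/-- the block inequality at the places `a, a + p, …, a + (n - 1) p`, conditioned on the places in `F` -/
def Blk (E : Finset ℕ → ℝ) (n D : ℕ) (η C : ℝ) (F : Finset ℕ) (a p : ℕ) : Prop :=
  ∑ t ∈ range n, (E (insert (a + t * p) F) - E F) ≤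
    D * Real.log 2 + η + C * (∑ t ∈ range n, (E (insert (a + t * p) F) - E F) -
      (E (F ∪ (range n).image (fun t => a + t * p)) - E F))

/-- LEAF BLK (from `S_NU`, by conditioning on the places in `F`: `H_chain`, `law_cnd`). -/
def S_BLK : Prop := ∀ (n : ℕ) (η : ℝ), 1 ≤ n → 0 < η → ∃ C : ℝ, 0 < C ∧
  ∀ (L : Set (Fin n → ℤˣ)) (D : ℕ),
    (∀ (T : Finset (Fin n)) (e : Fin n → ℤˣ),
      (∀ e' : Fin n → ℤˣ, (∀ j, j ∉ T → e' j = e j) → e' ∈ L) → T.card ≤ D) →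
    ∀ (Ω : Type) [Fintype Ω] (w : Ω → ℝ) (x : Ω → ℕ → ℤˣ), Law w →
      ∀ (F : Finset ℕ) (a p : ℕ), (∀ ω, w ω ≠ 0 → (fun t : Fin n => x ω (a + t * p)) ∈ L) →
        Blk (E w x) n D η C F a p

/-! ### Number theory -/

/-- the number of the `p ∈ M` with `p ∣ r + x` -/
def om (M : Finset ℕ) (r x : ℕ) : ℝ := ((M.filter (fun p => p ∣ r + x)).card : ℝ)

/-- LEAF TK (Turan-Kubilius for a fixed finite set of primes, `N → ∞`). Cauchy-Schwarz and
`∑_{x < N} (om x - S)² ≤ S N + O_M(1)`. -/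
def S_TK : Prop := ∀ M : Finset ℕ, (∀ p ∈ M, p.Prime) → ∃ N₀ : ℕ, ∀ N : ℕ, N₀ ≤ N → ∀ (r : ℕ) (u : ℕ → ℝ),
  (∀ x, 0 ≤ u x ∧ u x ≤ 1) →
    |∑ x ∈ range N, u x * om M r x - (∑ p ∈ M, 1 / (p : ℝ)) * ∑ x ∈ range N, u x| ≤
      (√(∑ p ∈ M, 1 / (p : ℝ)) + 1) * N

/-- LEAF PR. The sum of the reciprocals of the primes diverges. -/
def S_PR : Prop := ∀ (g : ℕ) (S : ℝ), ∃ G : ℕ, g < G ∧ S ≤ ∑ p ∈ (Ioc g G).filter Nat.Prime, 1 / (p : ℝ)

/-! ### The set function part -/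

/-- increment of the entropy: `H(W_x | W_y, y ∈ S)` -/
def inc (E : Finset ℕ → ℝ) (x : ℕ) (S : Finset ℕ) : ℝ := E (insert x S) - E S

/-- `H(W_x | W_y, y < x)` -/
def hh (E : Finset ℕ → ℝ) (x : ℕ) : ℝ := inc E x (range x)

/-- `H(W_x | W_y, y < x - g') - H(W_x | W_y, y < x - g)` (truncated subtraction) -/
def dl (E : Finset ℕ → ℝ) (g g' x : ℕ) : ℝ := inc E x (range (x - g')) - inc E x (range (x - g))

/-- LEAF AB1. Put `d_t = a + t p`, `F = range (d_(n-1) - g')`. By submodularity `inc E x S` is antitone in `S` (if `x ∈ T` then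
`inc E x T = 0 ≤ inc E x S` by `mono`). So `hh E d_t ≤ inc E d_t F ≤ inc E d_t (range (d_t - g'))` and
`E (F ∪ {d_0, …, d_(n-1)}) - E F = ∑_t inc E d_t (F ∪ {d_0, …, d_(t-1)}) ≥ ∑_t inc E d_t (range (d_t - g))`, because
`d_(t-1) = d_t - p < d_t - g` for `t ≥ 1` and `d_(n-1) - g' ≤ d_t - g` for all `t`. -/
def S_AB1 : Prop := ∀ E : Finset ℕ → ℝ, IsEnt E → ∀ (n D : ℕ) (η C : ℝ) (a p g G g' : ℕ), 1 ≤ n → 0 ≤ C → g < p → p ≤ G →
  g + n * G ≤ g' → (∀ F : Finset ℕ, Blk E n D η C F a p) →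
    ∑ t ∈ range n, hh E (a + t * p) ≤ D * Real.log 2 + η + C * ∑ t ∈ range n, dl E g g' (a + t * p)

/-- LEAF AB2. The places `x < N` with `p ∣ r + x` are `x₀ + i p`, `i < m`, for some `x₀ < p` (or there are none); group them in
blocks of `n`, less than `n` are left over. -/
def S_AB2 : Prop := ∀ (N r p n : ℕ) (h q : ℕ → ℝ) (K B : ℝ), 1 ≤ n → 1 ≤ p → 0 ≤ K → (∀ x, 0 ≤ h x ∧ h x ≤ B) → (∀ x, 0 ≤ q x) →
  (∀ a : ℕ, p ∣ r + a → a + (n - 1) * p < N →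
    ∑ t ∈ range n, h (a + t * p) ≤ K + ∑ t ∈ range n, q (a + t * p)) →
  ∑ x ∈ (range N).filter (fun x => p ∣ r + x), h x ≤
    K / n * ((range N).filter (fun x => p ∣ r + x)).card + ∑ x ∈ (range N).filter (fun x => p ∣ r + x), q x + n * B

/-- LEAF AB3. Elementary facts (telescoping sums; `inc` antitone in the set). -/
def S_AB3 : Prop := ∀ E : Finset ℕ → ℝ, IsEnt E →
  (∀ N : ℕ, E (range N) = ∑ x ∈ range N, hh E x) ∧
  (∀ x : ℕ, 0 ≤ hh E x ∧ hh E x ≤ Real.log 2) ∧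
  (∀ g g' x : ℕ, g ≤ g' → 0 ≤ dl E g g' x ∧ dl E g g' x ≤ Real.log 2) ∧
  (∀ (g : ℕ → ℕ) (K x : ℕ), Monotone g → ∑ k ∈ range K, dl E (g k) (g (k + 1)) x ≤ Real.log 2)

/-- LEAF ABS (from AB1, AB2, AB3, TK, PR; helper52 does this). -/
def S_ABS : Prop := ∀ (n D : ℕ) (δ : ℝ), 1 ≤ n → 0 < δ → ∃ η : ℝ, 0 < η ∧ ∀ C : ℝ, 0 < C →
  ∃ G N₀ : ℕ, ∀ N : ℕ, N₀ ≤ N → ∀ (r : ℕ) (E : Finset ℕ → ℝ), IsEnt E →
    (∀ p : ℕ, p.Prime → p ≤ G → ∀ a : ℕ, p ∣ r + a → a + (n - 1) * p < N → ∀ F : Finset ℕ,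
      Blk E n D η C F a p) →
    E (range N) ≤ (D / n + δ) * Real.log 2 * N

/-! ### The result -/

/-- LEAF FIN (from `S_ABS`, `S_BLK`, `S_ENT`, `S_UNI`).

Let `D = cubeDim f n`, `L = {e | Occurs f e}`; `L` and `-L` contain no cube of dimension `> D`.  Let `Q` be the product of the
primes `≤ G`.  A pattern of length `N` which occurs at some `m ≥ G` (i.e. `f (m + j + 1)`, `j < N`) lies in one of the sets
`W_ρ` (`ρ < Q`) of the patterns that occur at some `m ≥ G` with `m + 1 ≡ ρ mod Q`. In `W_ρ`, for a prime `p ≤ G`,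
`p ∣ ρ + a`, `a + (n-1) p < N`: `m + 1 + a = p (i + 1)` with `i ≥ 1` and
`(f (m + 1 + a + t p))_{t < n} = f p • (f (i + 1 + t))_{t < n} ∈ f p • L`.  Take `Ω = W_ρ`, uniform weights. There are at most
`G` patterns that occur only at `m < G`. Hence `P f N ≤ G + Q 2 ^ ((D / n + δ / 2) N)`. -/
def S_FIN : Prop := ∀ f : ℕ → ℤˣ, Multiplicative f → ∀ n : ℕ, 1 ≤ n → ∀ δ : ℝ, 0 < δ →
  ∃ N₀ : ℕ, ∀ N : ℕ, N₀ ≤ N → (P f N : ℝ) ≤ 2 ^ (((cubeDim f n : ℝ) / n + δ) * N)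

/-- LEAF CUB. Trivial facts on cubes. -/
def S_CUB : Prop := ∀ (f : ℕ → ℤˣ) (n : ℕ),
  (∃ (T : Finset (Fin n)) (e : Fin n → ℤˣ), Cube f T e ∧ T.card = cubeDim f n) ∧
  (∀ (T : Finset (Fin n)) (e : Fin n → ℤˣ), Cube f T e → T.card ≤ cubeDim f n) ∧
  cubeDim f n ≤ n ∧ 2 ^ cubeDim f n ≤ P f n ∧ P f n ≤ 2 ^ n ∧ (P f n < 2 ^ n → cubeDim f n < n)

/-- LEAF LIM (from `S_FIN` and `S_CUB`). -/
def S_LIM : Prop := ∀ f : ℕ → ℤˣ, Multiplicative f → ∃ h : ℝ, 0 ≤ h ∧ h ≤ 1 ∧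
  Filter.Tendsto (fun n : ℕ => Real.logb 2 (P f n) / n) Filter.atTop (nhds h) ∧
  Filter.Tendsto (fun n : ℕ => (cubeDim f n : ℝ) / n) Filter.atTop (nhds h) ∧
  ∀ n : ℕ, 1 ≤ n → h ≤ (cubeDim f n : ℝ) / n

end Pool.Agent.K9h52.EG
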