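import Pool.Agent.K9h52.EG.Stm

/-!
# Second part: patterns that occur on large sets (positive upper density)

The same theorem for the patterns that occur at a *large* set of places (`IsLarge`: upward closed, partition regular, invariant
under dilation), in particular for the patterns that occur with positive upper density.
-/

set_option autoImplicit false

namespace Pool.Agent.K9h52.EG

open Finset H137.PFR

/-- the pattern `e` occurs in `f` at a set of places in `L` -/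
def OccursL (L : Set ℕ → Prop) (f : ℕ → ℤˣ) {n : ℕ} (e : Fin n → ℤˣ) : Prop :=
  L {m : ℕ | 1 ≤ m ∧ ∀ j : Fin n, f (m + j + 1) = e j}

/-- the number of such patterns of length `n` -/
noncomputable def PL (L : Set ℕ → Prop) (f : ℕ → ℤˣ) (n : ℕ) : ℕ := Nat.card {e : Fin n → ℤˣ // OccursL L f e}

/-- all the patterns which agree with `e` outside `T` occur -/
def CubeL (L : Set ℕ → Prop) (f : ℕ → ℤˣ) {n : ℕ} (T : Finset (Fin n)) (e : Fin n → ℤˣ) : Prop :=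
  ∀ e' : Fin n → ℤˣ, (∀ j, j ∉ T → e' j = e j) → OccursL L f e'

/-- the largest dimension of a cube -/
noncomputable def cubeDimL (L : Set ℕ → Prop) (f : ℕ → ℤˣ) (n : ℕ) : ℕ :=
  sSup {d : ℕ | ∃ (T : Finset (Fin n)) (e : Fin n → ℤˣ), CubeL L f T e ∧ T.card = d}

/-- positive upper density -/
def PosUpperDensity (A : Set ℕ) : Prop :=
  ∃ c : ℝ, 0 < c ∧ ∀ X₀ : ℕ, ∃ X : ℕ, X₀ ≤ X ∧ c * X ≤ ({m : ℕ | m ≤ X ∧ m ∈ A}.ncard : ℝ)

structure IsLarge (L : Set ℕ → Prop) : Prop where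
  mono : ∀ A B : Set ℕ, A ⊆ B → L A → L B
  union : ∀ A B : Set ℕ, L (A ∪ B) → L A ∨ L B
  dil : ∀ (p a : ℕ) (A : Set ℕ), p.Prime → L A → (∀ m ∈ A, p ∣ m + 1 + a) →
    L {i : ℕ | 1 ≤ i ∧ ∃ m ∈ A, m + 1 + a = p * (i + 1)}
  all : L {m : ℕ | 1 ≤ m}
  empty : ¬ L ∅

/-- LEAF UD. -/
def S_UD : Prop := IsLarge PosUpperDensity

/-- LEAF CUB2 (as `S_CUB`; by `union` and `all` at least one pattern of each length occurs). -/
def S_CUB2 : Prop := ∀ (L : Set ℕ → Prop), IsLarge L → ∀ (f : ℕ → ℤˣ) (n : ℕ),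
  (∃ (T : Finset (Fin n)) (e : Fin n → ℤˣ), CubeL L f T e ∧ T.card = cubeDimL L f n) ∧
  (∀ (T : Finset (Fin n)) (e : Fin n → ℤˣ), CubeL L f T e → T.card ≤ cubeDimL L f n) ∧
  cubeDimL L f n ≤ n ∧ 2 ^ cubeDimL L f n ≤ PL L f n ∧ PL L f n ≤ 2 ^ n

/-- LEAF FIN2 (as `S_FIN`, with `W_ρ` = the patterns `e` with `L {m | 1 ≤ m ∧ m + 1 ≡ ρ mod Q ∧ e occurs at m}`; by `union` each
`e` with `OccursL L f e` lies in some `W_ρ`; no exceptional small `m` are needed). -/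
def S_FIN2 : Prop := ∀ (L : Set ℕ → Prop), IsLarge L → ∀ f : ℕ → ℤˣ, Multiplicative f → ∀ n : ℕ, 1 ≤ n → ∀ δ : ℝ, 0 < δ →
  ∃ N₀ : ℕ, ∀ N : ℕ, N₀ ≤ N → (PL L f N : ℝ) ≤ 2 ^ (((cubeDimL L f n : ℝ) / n + δ) * N)

/-- LEAF LIM2 (from `S_FIN2` and `S_CUB2`, as `S_LIM`). -/
def S_LIM2 : Prop := ∀ (L : Set ℕ → Prop), IsLarge L → ∀ f : ℕ → ℤˣ, Multiplicative f → ∃ h : ℝ,
  Filter.Tendsto (fun n : ℕ => Real.logb 2 (PL L f n) / n) Filter.atTop (nhds h) ∧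
  Filter.Tendsto (fun n : ℕ => (cubeDimL L f n : ℝ) / n) Filter.atTop (nhds h) ∧
  ∀ n : ℕ, 1 ≤ n → h ≤ (cubeDimL L f n : ℝ) / n

end Pool.Agent.K9h52.EG
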