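import Pool.Agent.K9h52.EG.Stm

/-!
# Turan-Kubilius for a finite set of primes
-/

set_option autoImplicit false

namespace Pool.Agent.K9h52.EG.TK_

open Finset Pool.Agent.K9h52.EG

/-- the number of the multiples of `d` among `r + x`, `x < N` -/
theorem cnt_bound (d r N : ℕ) (hd : 0 < d) :
    |∑ x ∈ range N, (if d ∣ r + x then (1 : ℝ) else 0) - (N : ℝ) / d| ≤ 1 := by
  have h0 : ∀ n : ℕ, ∑ y ∈ range n, (if d ∣ y + 1 then (1 : ℝ) else 0) = ((n / d : ℕ) : ℝ) := by
    intro n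
    rw [Finset.sum_boole]
    congr 1
    exact Nat.card_multiples n d
  have h1 : ∑ x ∈ range N, (if d ∣ r + x then (1 : ℝ) else 0) =
      (((r + d - 1 + N) / d : ℕ) : ℝ) - (((r + d - 1) / d : ℕ) : ℝ) := by
    rw [← h0, ← h0, Finset.sum_range_add, add_sub_cancel_left]
    refine Finset.sum_congr rfl fun x _ => ?_
    have h2 : r + d - 1 + x + 1 = r + x + d := by omega
    rw [h2]
    have h3 : (d ∣ r + x + d) ↔ (d ∣ r + x) := Nat.dvd_add_self_right
    simp only [h3]
  rw [h1]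
  have hd' : (0 : ℝ) < d := by exact_mod_cast hd
  have key : ∀ n : ℕ, (n : ℝ) / d - 1 < ((n / d : ℕ) : ℝ) ∧ ((n / d : ℕ) : ℝ) ≤ (n : ℝ) / d := by
    intro n
    refine ⟨?_, Nat.cast_div_le⟩
    rw [sub_lt_iff_lt_add, div_lt_iff₀ hd']
    have h2 : n < (n / d + 1) * d := by
      have := Nat.lt_div_mul_add (a := n) hd
      rw [add_mul, one_mul]
      exact this
    exact_mod_cast h2
  obtain ⟨k1, k2⟩ := key (r + d - 1 + N)
  obtain ⟨k3, k4⟩ := key (r + d - 1)
  have e1 : ((r + d - 1 + N : ℕ) : ℝ) / d = ((r + d - 1 : ℕ) : ℝ) / d + (N : ℝ) / d := by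
    push_cast
    rw [add_div]
  rw [e1] at k1 k2
  rw [abs_le]
  constructor <;> linarith

theorem om_eq (M : Finset ℕ) (r x : ℕ) :
    om M r x = ∑ p ∈ M, (if p ∣ r + x then (1 : ℝ) else 0) := by
  unfold om
  rw [Finset.sum_boole]

theorem tk : S_TK := by
  intro M hM
  obtain ⟨S, hS⟩ : ∃ S : ℝ, S = ∑ p ∈ M, 1 / (p : ℝ) := ⟨_, rfl⟩
  have hS0 : 0 ≤ S := by
    rw [hS]
    exact Finset.sum_nonneg fun p _ => by positivity
  refine ⟨⌈(M.card : ℝ) ^ 2 + 2 * S * M.card⌉₊, fun N hN r u hu => ?_⟩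
  rw [← hS]
  have hC : (M.card : ℝ) ^ 2 + 2 * S * M.card ≤ N := Nat.ceil_le.mp hN
  -- second moment
  have hsq : ∑ x ∈ range N, (om M r x) ^ 2 ≤ N * S ^ 2 + (M.card : ℝ) ^ 2 + N * S := by
    have h1 : ∀ x, (om M r x) ^ 2 = ∑ p ∈ M, ∑ q ∈ M,
        ((if p ∣ r + x then (1 : ℝ) else 0) * (if q ∣ r + x then (1 : ℝ) else 0)) := by
      intro x
      rw [om_eq, sq, Finset.sum_mul_sum]
    have h2 : ∑ x ∈ range N, (om M r x) ^ 2 = ∑ p ∈ M, ∑ q ∈ M, ∑ x ∈ range N,
        ((if p ∣ r + x then (1 : ℝ) else 0) * (if q ∣ r + x then (1 : ℝ) else 0)) := by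
      rw [Finset.sum_congr rfl fun x _ => h1 x, Finset.sum_comm]
      refine Finset.sum_congr rfl fun p _ => ?_
      rw [Finset.sum_comm]
    rw [h2]
    have h3 : ∀ p ∈ M, ∀ q ∈ M, ∑ x ∈ range N,
        ((if p ∣ r + x then (1 : ℝ) else 0) * (if q ∣ r + x then (1 : ℝ) else 0)) ≤
        N * (1 / (p : ℝ) * (1 / (q : ℝ))) + 1 + (if p = q then N * (1 / (p : ℝ)) else 0) := by
      intro p hp q hq
      have hp0 : 0 < p := (hM p hp).pos
      have hq0 : 0 < q := (hM q hq).pos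
      by_cases hpq : p = q
      · subst hpq
        rw [if_pos rfl]
        have h4 : ∀ x, ((if p ∣ r + x then (1 : ℝ) else 0) * (if p ∣ r + x then (1 : ℝ) else 0)) =
            (if p ∣ r + x then (1 : ℝ) else 0) := by
          intro x
          split_ifs <;> norm_num
        rw [Finset.sum_congr rfl fun x _ => h4 x]
        have h5 := (abs_le.mp (cnt_bound p r N hp0)).2
        have h6 : (0 : ℝ) ≤ N * (1 / (p : ℝ) * (1 / (p : ℝ))) := by positivity
        have h7 : (N : ℝ) * (1 / (p : ℝ)) = N / p := by ring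
        linarith
      · rw [if_neg hpq]
        have hcop : Nat.Coprime p q := (Nat.coprime_primes (hM p hp) (hM q hq)).mpr hpq
        have h4 : ∀ x, ((if p ∣ r + x then (1 : ℝ) else 0) * (if q ∣ r + x then (1 : ℝ) else 0)) =
            (if p * q ∣ r + x then (1 : ℝ) else 0) := by
          intro x
          by_cases h5 : p ∣ r + x
          · by_cases h6 : q ∣ r + x
            · rw [if_pos h5, if_pos h6, if_pos (hcop.mul_dvd_of_dvd_of_dvd h5 h6)]
              norm_num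
            · rw [if_neg h6, if_neg (fun h7 => h6 (dvd_of_mul_left_dvd h7))]
              norm_num
          · rw [if_neg h5, if_neg (fun h7 => h5 (dvd_of_mul_right_dvd h7))]
            norm_num
        rw [Finset.sum_congr rfl fun x _ => h4 x]
        have h5 := (abs_le.mp (cnt_bound (p * q) r N (Nat.mul_pos hp0 hq0))).2
        have h7 : (N : ℝ) * (1 / (p : ℝ) * (1 / (q : ℝ))) = N / ((p * q : ℕ) : ℝ) := by
          push_cast
          field_simp
        rw [h7]
        linarith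
    refine (Finset.sum_le_sum fun p hp => Finset.sum_le_sum fun q hq => h3 p hp q hq).trans
      (le_of_eq ?_)
    have h4 : ∀ p ∈ M, ∑ q ∈ M, ((N : ℝ) * (1 / (p : ℝ) * (1 / (q : ℝ))) + 1 +
        (if p = q then N * (1 / (p : ℝ)) else 0)) =
        (N : ℝ) * S * (1 / (p : ℝ)) + M.card + N * (1 / (p : ℝ)) := by
      intro p hp
      rw [Finset.sum_add_distrib, Finset.sum_add_distrib, Finset.sum_ite_eq, if_pos hp,
        Finset.sum_const, nsmul_eq_mul, mul_one, ← Finset.mul_sum, ← Finset.mul_sum, ← hS]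
      ring
    rw [Finset.sum_congr rfl h4, Finset.sum_add_distrib, Finset.sum_add_distrib, ← Finset.mul_sum,
      ← Finset.mul_sum, ← hS, Finset.sum_const, nsmul_eq_mul]
    ring
  -- first moment
  have hfst : N * S - M.card ≤ ∑ x ∈ range N, om M r x := by
    have h2 : ∑ x ∈ range N, om M r x = ∑ p ∈ M, ∑ x ∈ range N,
        (if p ∣ r + x then (1 : ℝ) else 0) := by
      rw [Finset.sum_congr rfl fun x _ => om_eq M r x, Finset.sum_comm]
    rw [h2]
    have h3 : ∀ p ∈ M, (N : ℝ) * (1 / (p : ℝ)) - 1 ≤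
        ∑ x ∈ range N, (if p ∣ r + x then (1 : ℝ) else 0) := by
      intro p hp
      have h5 := (abs_le.mp (cnt_bound p r N (hM p hp).pos)).1
      have h7 : (N : ℝ) * (1 / (p : ℝ)) = N / p := by ring
      linarith
    refine le_trans (le_of_eq ?_) (Finset.sum_le_sum h3)
    rw [Finset.sum_sub_distrib, ← Finset.mul_sum, ← hS, Finset.sum_const, nsmul_eq_mul, mul_one]
  have hvar : ∑ x ∈ range N, (om M r x - S) ^ 2 ≤ N * S + ((M.card : ℝ) ^ 2 + 2 * S * M.card) := by
    have h1 : ∑ x ∈ range N, (om M r x - S) ^ 2 = ∑ x ∈ range N, (om M r x) ^ 2 -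
        2 * S * ∑ x ∈ range N, om M r x + N * S ^ 2 := by
      have h2 : ∀ x ∈ range N, (om M r x - S) ^ 2 = (om M r x) ^ 2 - 2 * S * om M r x + S ^ 2 := by
        intro x _
        ring
      rw [Finset.sum_congr rfl h2, Finset.sum_add_distrib, Finset.sum_sub_distrib, ← Finset.mul_sum,
        Finset.sum_const, nsmul_eq_mul, card_range]
    rw [h1]
    have h2 : 2 * S * (N * S - M.card) ≤ 2 * S * ∑ x ∈ range N, om M r x :=
      mul_le_mul_of_nonneg_left hfst (by positivity)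
    nlinarith
  have h1 : ∑ x ∈ range N, u x * om M r x - S * ∑ x ∈ range N, u x =
      ∑ x ∈ range N, u x * (om M r x - S) := by
    rw [Finset.mul_sum, ← Finset.sum_sub_distrib]
    refine Finset.sum_congr rfl fun x _ => ?_
    ring
  rw [h1]
  have h2 : |∑ x ∈ range N, u x * (om M r x - S)| ≤ ∑ x ∈ range N, |om M r x - S| := by
    refine (Finset.abs_sum_le_sum_abs _ _).trans (Finset.sum_le_sum fun x _ => ?_)
    rw [abs_mul, abs_of_nonneg (hu x).1]
    calc u x * |om M r x - S| ≤ 1 * |om M r x - S| :=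
          mul_le_mul_of_nonneg_right (hu x).2 (abs_nonneg _)
      _ = _ := one_mul _
  refine h2.trans ?_
  have h3 : (∑ x ∈ range N, |om M r x - S|) ^ 2 ≤ ((√S + 1) * N) ^ 2 := by
    have h4 := sq_sum_le_card_mul_sum_sq (s := range N) (f := fun x => |om M r x - S|)
    simp only [sq_abs, card_range] at h4
    refine h4.trans ?_
    have h5 : (N : ℝ) * ∑ x ∈ range N, (om M r x - S) ^ 2 ≤ N * (N * S + N) := by
      apply mul_le_mul_of_nonneg_left _ (Nat.cast_nonneg N)
      linarith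
    refine h5.trans ?_
    have h6 : √S ^ 2 = S := Real.sq_sqrt hS0
    have h7 : 0 ≤ √S := Real.sqrt_nonneg S
    have h8 : S + 1 ≤ (√S + 1) ^ 2 := by nlinarith
    have h9 : (0 : ℝ) ≤ (N : ℝ) ^ 2 := by positivity
    calc (N : ℝ) * (N * S + N) = (S + 1) * (N : ℝ) ^ 2 := by ring
      _ ≤ (√S + 1) ^ 2 * (N : ℝ) ^ 2 := mul_le_mul_of_nonneg_right h8 h9
      _ = _ := by ring
  have h4 : 0 ≤ (√S + 1) * N := by positivity
  have h5 : 0 ≤ ∑ x ∈ range N, |om M r x - S| := Finset.sum_nonneg fun x _ => abs_nonneg _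
  exact (pow_le_pow_iff_left₀ h5 h4 two_ne_zero).mp h3

end Pool.Agent.K9h52.EG.TK_
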