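import Pool.Agent.K9h52.EG.Stm

/-!
# Leaf UNI
-/

set_option autoImplicit false

namespace Pool.Agent.K9h52.EG.UNI_

open Finset H137.PFR

theorem uni : S_UNI := by
  classical
  intro Ω _ _ x S hx
  set N : ℝ := (Fintype.card Ω : ℝ) with hN
  have hN0 : 0 < N := by
    rw [hN]
    exact_mod_cast Fintype.card_pos
  have hlaw : Law (fun _ : Ω => 1 / N) := by
    refine ⟨fun _ => by positivity, ?_⟩
    rw [Finset.sum_const, Finset.card_univ, nsmul_eq_mul, ← hN]
    field_simp
  refine ⟨hlaw, ?_⟩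
  have hinj : Function.Injective (fun ω : Ω => (fun j : S => x ω (j : ℕ))) := by
    intro ω ω' h
    exact hx ω ω' fun j hj => congrFun h ⟨j, hj⟩
  have h1 : E (fun _ : Ω => 1 / N) x S = H (fun _ : Ω => 1 / N) (fun ω : Ω => ω) := by
    unfold E
    exact H_eq hlaw (Function.invFun fun ω : Ω => (fun j : S => x ω (j : ℕ)))
      (fun ω : Ω => (fun j : S => x ω (j : ℕ))) (fun ω => Function.leftInverse_invFun hinj ω)
      (fun _ => rfl)
  rw [h1]
  have h2 : push (fun _ : Ω => 1 / N) (fun ω : Ω => ω) = fun _ : Ω => 1 / N := by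
    funext a
    unfold push
    simp
  unfold H
  rw [h2]
  unfold ent
  rw [Finset.sum_const, Finset.card_univ, nsmul_eq_mul, ← hN, Real.negMulLog, Real.log_div one_ne_zero hN0.ne', Real.log_one]
  field_simp
  ring

end Pool.Agent.K9h52.EG.UNI_
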