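import Pool.Agent.K9h52.EG.Abs
import Pool.Agent.K9h52.EG.Ab1
import Pool.Agent.K9h52.EG.Ab2
import Pool.Agent.K9h52.EG.Ab3
import Pool.Agent.K9h52.EG.Tk
import Pool.Agent.K9h52.EG.Pr
import Pool.Agent.K9h52.EG.Nu
import Pool.Agent.K9h52.EG.Blk
import Pool.Agent.K9h52.EG.Ent
import Pool.Agent.K9h52.EG.Uni
import Pool.Agent.K9h52.EG.Fin
import Pool.Agent.K9h52.EG.Cub
import Pool.Agent.K9h52.EG.Lim

set_option autoImplicit false

namespace Pool.Agent.K9h52.EG.Top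

open Filter Topology

/-- the Liouville function -/
def lam (n : ℕ) : ℤˣ := (-1) ^ ArithmeticFunction.cardFactors n

theorem lam_mul : Multiplicative lam := by
  intro p m hp hm
  unfold lam
  rw [ArithmeticFunction.cardFactors_mul hp.ne_zero (by omega), pow_add]

theorem top : Multiplicative lam ∧
    ∀ f : ℕ → ℤˣ, Multiplicative f → ∃ h : ℝ,
      Tendsto (fun n : ℕ => Real.logb 2 (P f n) / n) atTop (𝓝 h) ∧
      Tendsto (fun n : ℕ => (cubeDim f n : ℝ) / n) atTop (𝓝 h) ∧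
      (∀ n : ℕ, 1 ≤ n → h ≤ (cubeDim f n : ℝ) / n) ∧
      (∀ n : ℕ, 1 ≤ n → (∃ e : Fin n → ℤˣ, ¬ Occurs f e) → h ≤ 1 - 1 / n) := by
  refine ⟨lam_mul, fun f hf => ?_⟩
  have hA : S_ABS := Abs_.abs' Ab1.ab1 AB2_.ab2 Pool.Agent.K9h52.EG.ab3 TK_.tk Pool.Agent.K9h52.EG.pr
  have hB : S_BLK := BLK_.blk X_nu.nu
  have hF : S_FIN := FIN_.fin hA hB Ent_.ent UNI_.uni CUB_.cub
  obtain ⟨h, -, -, h1, h2, h3⟩ := X_lim.lim hF CUB_.cub f hf
  refine ⟨h, h1, h2, h3, ?_⟩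
  rintro n hn ⟨e, he⟩
  obtain ⟨⟨T, e0, hT, hTc⟩, -, -, -, -, -⟩ := CUB_.cub f n
  have hlt : cubeDim f n < n := by
    by_contra hcon
    have hc : T.card = Fintype.card (Fin n) := by
      have := Finset.card_le_univ T
      rw [Fintype.card_fin] at *
      omega
    have hu := Finset.card_eq_iff_eq_univ T |>.1 hc
    exact he (hT e fun j hj => absurd (hu ▸ Finset.mem_univ j) hj)
  have hn' : (0 : ℝ) < n := by exact_mod_cast hn
  refine (h3 n hn).trans ?_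
  rw [div_le_iff₀ hn', sub_mul, one_mul, one_div, inv_mul_cancel₀ hn'.ne']
  have : ((cubeDim f n : ℕ) : ℝ) + 1 ≤ n := by exact_mod_cast hlt
  linarith

end Pool.Agent.K9h52.EG.Top
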