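import Pool.Agent.K9h52.EG.Stm2

/-!
# Positive upper density is a notion of largeness
-/

set_option autoImplicit false

namespace Pool.Agent.K9h52.EG

open Finset

theorem ud_fin (A : Set ℕ) (X : ℕ) : {m : ℕ | m ≤ X ∧ m ∈ A}.Finite :=
  (Set.finite_Iic X).subset (fun _ h => h.1)

theorem ud_dil (p a X : ℕ) (A : Set ℕ) (hp : p.Prime) (hA : ∀ m ∈ A, p ∣ m + 1 + a) :
    {m : ℕ | m ≤ X ∧ m ∈ A}.ncard ≤ 2 * p +
      {m : ℕ | m ≤ X + a ∧ m ∈ {i : ℕ | 1 ≤ i ∧ ∃ m ∈ A, m + 1 + a = p * (i + 1)}}.ncard := by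
  have hp0 : 0 < p := hp.pos
  set S₂ : Set ℕ := {m : ℕ | (m ≤ X ∧ m ∈ A) ∧ 2 * p ≤ m} with hS₂
  have h1 : {m : ℕ | m ≤ X ∧ m ∈ A} ⊆ Set.Iio (2 * p) ∪ S₂ := by
    intro m hm
    rcases lt_or_ge m (2 * p) with h | h
    · exact Or.inl h
    · exact Or.inr ⟨hm, h⟩
  have hf2 : S₂.Finite := (ud_fin A X).subset (fun _ h => h.1)
  have h2 : {m : ℕ | m ≤ X ∧ m ∈ A}.ncard ≤ (Set.Iio (2 * p)).ncard + S₂.ncard :=
    (Set.ncard_le_ncard h1 ((Set.finite_Iio _).union hf2)).trans (Set.ncard_union_le _ _)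
  have h3 : (Set.Iio (2 * p)).ncard = 2 * p := by
    rw [← Finset.coe_Iio, Set.ncard_coe_finset, Nat.card_Iio]
  have hk : ∀ m ∈ S₂, ∃ k, m + 1 + a = p * k ∧ 2 ≤ k := by
    rintro m ⟨⟨-, hm⟩, hm2⟩
    obtain ⟨k, hk⟩ := hA m hm
    refine ⟨k, hk, ?_⟩
    by_contra hlt
    have h4 : k ≤ 1 := by omega
    have h5 : p * k ≤ p * 1 := Nat.mul_le_mul_left p h4
    omega
  have h4 : S₂.ncard ≤
      {m : ℕ | m ≤ X + a ∧ m ∈ {i : ℕ | 1 ≤ i ∧ ∃ m ∈ A, m + 1 + a = p * (i + 1)}}.ncard := by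
    refine Set.ncard_le_ncard_of_injOn (fun m => (m + 1 + a) / p - 1) ?_ ?_ (ud_fin _ _)
    · intro m hm
      obtain ⟨k, h5, h6⟩ := hk m hm
      have h7 : (m + 1 + a) / p - 1 = k - 1 := by rw [h5, Nat.mul_div_cancel_left k hp0]
      change (m + 1 + a) / p - 1 ≤ X + a ∧ 1 ≤ (m + 1 + a) / p - 1 ∧
        ∃ m' ∈ A, m' + 1 + a = p * ((m + 1 + a) / p - 1 + 1)
      rw [h7]
      refine ⟨?_, by omega, m, hm.1.2, ?_⟩
      · have h8 : k ≤ p * k := Nat.le_mul_of_pos_left k hp0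
        have h9 := hm.1.1
        omega
      · rw [h5, Nat.sub_add_cancel (by omega)]
    · intro m hm m' hm' h
      obtain ⟨k, h5, h6⟩ := hk m hm
      obtain ⟨k', h5', h6'⟩ := hk m' hm'
      change (m + 1 + a) / p - 1 = (m' + 1 + a) / p - 1 at h
      rw [h5, h5', Nat.mul_div_cancel_left k hp0, Nat.mul_div_cancel_left k' hp0] at h
      have h7 : k = k' := by omega
      subst h7
      omega
  omega

theorem ud : S_UD where
  mono := by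
    rintro A B hAB ⟨c, hc, h⟩
    refine ⟨c, hc, fun X₀ => ?_⟩
    obtain ⟨X, h1, h2⟩ := h X₀
    refine ⟨X, h1, h2.trans ?_⟩
    have h3 : {m : ℕ | m ≤ X ∧ m ∈ A}.ncard ≤ {m : ℕ | m ≤ X ∧ m ∈ B}.ncard :=
      Set.ncard_le_ncard (fun m (hm : m ≤ X ∧ m ∈ A) => (⟨hm.1, hAB hm.2⟩ : m ≤ X ∧ m ∈ B))
        (ud_fin B X)
    exact_mod_cast h3
  union := by
    rintro A B ⟨c, hc, h⟩
    by_cases hA : PosUpperDensity A
    · exact Or.inl hA
    · right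
      unfold PosUpperDensity at hA
      push Not at hA
      obtain ⟨XA, hXA⟩ := hA (c / 2) (by positivity)
      refine ⟨c / 2, by positivity, fun X₀ => ?_⟩
      obtain ⟨X, h1, h2⟩ := h (max X₀ XA)
      refine ⟨X, (le_max_left _ _).trans h1, ?_⟩
      have h3 := hXA X ((le_max_right _ _).trans h1)
      have h4 : ({m : ℕ | m ≤ X ∧ m ∈ A ∪ B}.ncard : ℝ) ≤
          ({m : ℕ | m ≤ X ∧ m ∈ A}.ncard : ℝ) + ({m : ℕ | m ≤ X ∧ m ∈ B}.ncard : ℝ) := by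
        have h5 : {m : ℕ | m ≤ X ∧ m ∈ A ∪ B} ⊆ {m : ℕ | m ≤ X ∧ m ∈ A} ∪ {m : ℕ | m ≤ X ∧ m ∈ B} := by
          rintro m ⟨h6, h7 | h7⟩
          · exact Or.inl ⟨h6, h7⟩
          · exact Or.inr ⟨h6, h7⟩
        exact_mod_cast (Set.ncard_le_ncard h5 ((ud_fin A X).union (ud_fin B X))).trans
          (Set.ncard_union_le _ _)
      linarith
  dil := by
    rintro p a A hp ⟨c, hc, h⟩ hA
    refine ⟨c / 2, by positivity, fun X₀ => ?_⟩
    obtain ⟨X, h1, h2⟩ := h (max X₀ (a + ⌈4 * p / c⌉₊))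
    refine ⟨X + a, by have := (le_max_left X₀ (a + ⌈4 * p / c⌉₊)).trans h1; omega, ?_⟩
    have h3 : ({m : ℕ | m ≤ X ∧ m ∈ A}.ncard : ℝ) ≤ 2 * p +
        ({m : ℕ | m ≤ X + a ∧ m ∈ {i : ℕ | 1 ≤ i ∧ ∃ m ∈ A, m + 1 + a = p * (i + 1)}}.ncard : ℝ) := by
      exact_mod_cast ud_dil p a X A hp hA
    have h4 : (a : ℝ) + 4 * p / c ≤ X := by
      have h5 : a + ⌈4 * (p : ℝ) / c⌉₊ ≤ X := (le_max_right _ _).trans h1
      have h6 : ((a + ⌈4 * (p : ℝ) / c⌉₊ : ℕ) : ℝ) ≤ X := by exact_mod_cast h5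
      push_cast at h6
      have h7 := Nat.le_ceil (4 * (p : ℝ) / c)
      linarith
    have h5 : c * a + 4 * p ≤ c * X := by
      have h6 := mul_le_mul_of_nonneg_left h4 hc.le
      have h7 : c * ((a : ℝ) + 4 * p / c) = c * a + 4 * p := by
        field_simp
      linarith
    push_cast
    linarith
  all := by
    refine ⟨1, one_pos, fun X₀ => ⟨X₀, le_rfl, ?_⟩⟩
    have h1 : {m : ℕ | m ≤ X₀ ∧ m ∈ {m : ℕ | 1 ≤ m}} = ((Finset.Icc 1 X₀ : Finset ℕ) : Set ℕ) := by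
      ext m
      simp only [Set.mem_ofPred_eq, Finset.coe_Icc, Set.mem_Icc]
      exact and_comm
    rw [h1, Set.ncard_coe_finset, Nat.card_Icc, one_mul]
    simp
  empty := by
    rintro ⟨c, hc, h⟩
    obtain ⟨X, h1, h2⟩ := h 1
    have h3 : {m : ℕ | m ≤ X ∧ m ∈ (∅ : Set ℕ)} = ∅ := by
      ext m
      simp
    rw [h3, Set.ncard_empty, Nat.cast_zero] at h2
    have h4 : (1 : ℝ) ≤ X := by exact_mod_cast h1
    have h5 : 0 < c * X := by positivity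
    linarith

end Pool.Agent.K9h52.EG
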