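import Pool.Agent.K9h52.EG.Top
import Pool.Agent.K9h52.EG.Fin2
import Pool.Agent.K9h52.EG.Cub2
import Pool.Agent.K9h52.EG.Lim2
import Pool.Agent.K9h52.EG.Ud

set_option autoImplicit false

namespace Pool.Agent.K9h52.EG.Top2

open Filter Topology

theorem top2 : Multiplicative Pool.Agent.K9h52.EG.Top.lam ∧
    ∀ L : Set ℕ → Prop, L = Set.Nonempty ∨ L = PosUpperDensity → ∀ f : ℕ → ℤˣ, Multiplicative f → ∃ h : ℝ,
      Tendsto (fun n : ℕ => Real.logb 2 (PL L f n) / n) atTop (𝓝 h) ∧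
      Tendsto (fun n : ℕ => (cubeDimL L f n : ℝ) / n) atTop (𝓝 h) ∧
      (∀ n : ℕ, 1 ≤ n → h ≤ (cubeDimL L f n : ℝ) / n) ∧
      (∀ n : ℕ, 1 ≤ n → (∃ e : Fin n → ℤˣ, ¬ OccursL L f e) → h ≤ 1 - 1 / n) := by
  refine ⟨Pool.Agent.K9h52.EG.Top.lam_mul, ?_⟩
  rintro L (rfl | rfl) f hf
  · exact _root_.Pool.Agent.K9h52.EG.Top.top.2 f hf
  · have hA : S_ABS := Abs_.abs' Ab1.ab1 AB2_.ab2 Pool.Agent.K9h52.EG.ab3 TK_.tk Pool.Agent.K9h52.EG.pr
    have hB : S_BLK := BLK_.blk X_nu.nu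
    have hF : S_FIN2 := Pool.Agent.K9h52.EG.fin2 hA hB Ent_.ent UNI_.uni CUB2_.cub2
    obtain ⟨h, h1, h2, h3⟩ := X_lim2.lim2 hF CUB2_.cub2 PosUpperDensity Pool.Agent.K9h52.EG.ud f hf
    refine ⟨h, h1, h2, h3, ?_⟩
    rintro n hn ⟨e, he⟩
    obtain ⟨⟨T, e0, hT, hTc⟩, -, -, -, -⟩ := CUB2_.cub2 PosUpperDensity Pool.Agent.K9h52.EG.ud f n
    have hlt : cubeDimL PosUpperDensity f n < n := by
      by_contra hcon
      have hc : T.card = Fintype.card (Fin n) := by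
        have := Finset.card_le_univ T
        rw [Fintype.card_fin] at *
        omega
      have hu := Finset.card_eq_iff_eq_univ T |>.1 hc
      exact he (hT e fun j hj => absurd (hu ▸ Finset.mem_univ j) hj)
    have hn' : (0 : ℝ) < n := by exact_mod_cast hn
    refine (h3 n hn).trans ?_
    rw [div_le_iff₀ hn', sub_mul, one_mul, one_div, inv_mul_cancel₀ hn'.ne']
    have : ((cubeDimL PosUpperDensity f n : ℕ) : ℝ) + 1 ≤ n := by exact_mod_cast hlt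
    linarith

end Pool.Agent.K9h52.EG.Top2
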