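import Pool.Agent.K9h52.EG.Stm2

/-!
# Multiplication by a sequence of zero entropy

The number of the patterns of `g` is at most the number of the patterns of `f` times the number of the patterns of `f g`.
-/

set_option autoImplicit false

namespace Pool.Agent.K9h52.EG.Trf

open Filter Topology Pool.Agent.K9h52.EG

/-- monotone and partition regular -/
structure Reg (L : Set ℕ → Prop) : Prop where
  mono : ∀ A B : Set ℕ, A ⊆ B → L A → L B
  union : ∀ A B : Set ℕ, L (A ∪ B) → L A ∨ L B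
  all : L {m : ℕ | 1 ≤ m}
  empty : ¬ L ∅

theorem reg_nonempty : Reg Set.Nonempty where
  mono := fun _ _ h hA => hA.mono h
  union := fun A B h => by
    obtain ⟨x, hx⟩ := h
    rcases hx with hx | hx
    · exact Or.inl ⟨x, hx⟩
    · exact Or.inr ⟨x, hx⟩
  all := ⟨1, show (1 : ℕ) ≤ 1 from le_refl _⟩
  empty := Set.not_nonempty_empty

theorem reg_large {L : Set ℕ → Prop} (h : IsLarge L) : Reg L := ⟨h.mono, h.union, h.all, h.empty⟩

/-- partition regularity for finite unions -/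
theorem biUnion {L : Set ℕ → Prop} (hL : Reg L) {ι : Type} [DecidableEq ι] (S : Finset ι)
    (A : ι → Set ℕ) (h : L (⋃ i ∈ S, A i)) : ∃ i ∈ S, L (A i) := by
  induction S using Finset.induction_on with
  | empty =>
    exfalso
    apply hL.empty
    simpa using h
  | insert a S _ ih =>
    rw [Finset.set_biUnion_insert] at h
    rcases hL.union _ _ h with h1 | h1
    · exact ⟨a, Finset.mem_insert_self a S, h1⟩
    · obtain ⟨i, hi, h2⟩ := ih h1
      exact ⟨i, Finset.mem_insert_of_mem hi, h2⟩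

/-- some pattern occurs -/
theorem pos {L : Set ℕ → Prop} (hL : Reg L) (f : ℕ → ℤˣ) (n : ℕ) : 0 < PL L f n := by
  classical
  obtain ⟨e, -, he⟩ := biUnion hL (Finset.univ : Finset (Fin n → ℤˣ))
    (fun e => {m : ℕ | 1 ≤ m ∧ ∀ j : Fin n, f (m + j + 1) = e j}) (by
      refine hL.mono _ _ ?_ hL.all
      intro m hm
      have hm' : 1 ≤ m := hm
      simp only [Finset.mem_univ, Set.iUnion_true, Set.mem_iUnion]
      exact ⟨fun j => f (m + j + 1), hm', fun j => rfl⟩)
  unfold PL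
  haveI : Nonempty {e : Fin n → ℤˣ // OccursL L f e} := ⟨⟨e, he⟩⟩
  exact Nat.card_pos

theorem split {L : Set ℕ → Prop} (hL : Reg L) (f g : ℕ → ℤˣ) (n : ℕ) (e : Fin n → ℤˣ) (he : OccursL L g e) :
    ∃ z : Fin n → ℤˣ, OccursL L f (fun j => z j * e j) ∧ OccursL Set.Nonempty (fun m => f m * g m) z := by
  classical
  obtain ⟨z, -, hz⟩ := biUnion hL (Finset.univ : Finset (Fin n → ℤˣ))
    (fun z => {m : ℕ | (1 ≤ m ∧ ∀ j : Fin n, g (m + j + 1) = e j) ∧ ∀ j : Fin n, f (m + j + 1) * g (m + j + 1) = z j}) (by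
      refine hL.mono _ _ ?_ he
      intro m hm
      simp only [Finset.mem_univ, Set.iUnion_true, Set.mem_iUnion]
      exact ⟨fun j => f (m + j + 1) * g (m + j + 1), hm, fun j => rfl⟩)
  refine ⟨z, hL.mono _ _ ?_ hz, ?_⟩
  · rintro m ⟨⟨h1, h2⟩, h3⟩
    refine ⟨h1, fun j => ?_⟩
    change f (m + j + 1) = z j * e j
    rw [← h3 j, ← h2 j, mul_assoc, Int.units_mul_self, mul_one]
  · by_contra hne
    have h0 : {m : ℕ | (1 ≤ m ∧ ∀ j : Fin n, g (m + j + 1) = e j) ∧
        ∀ j : Fin n, f (m + j + 1) * g (m + j + 1) = z j} = ∅ := by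
      rw [← Set.not_nonempty_iff_eq_empty]
      rintro ⟨m, ⟨h1, h2⟩, h3⟩
      exact hne ⟨m, h1, h3⟩
    rw [h0] at hz
    exact hL.empty hz

theorem pl_le {L : Set ℕ → Prop} (hL : Reg L) (f g : ℕ → ℤˣ) (n : ℕ) :
    PL L g n ≤ PL L f n * PL Set.Nonempty (fun m => f m * g m) n := by
  classical
  choose z hz1 hz2 using fun e : {e : Fin n → ℤˣ // OccursL L g e} => split hL f g n e.1 e.2
  unfold PL
  rw [← Nat.card_prod]
  refine Nat.card_le_card_of_injective
    (fun e => ((⟨fun j => z e j * e.1 j, hz1 e⟩, ⟨z e, hz2 e⟩) :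
      {e : Fin n → ℤˣ // OccursL L f e} × {e : Fin n → ℤˣ // OccursL Set.Nonempty (fun m => f m * g m) e})) ?_
  intro a b hab
  have h1 : (fun j => z a j * a.1 j) = fun j => z b j * b.1 j := congrArg (fun x => x.1.1) hab
  have h2 : z a = z b := congrArg (fun x => x.2.1) hab
  apply Subtype.ext
  funext j
  have h3 : z a j * a.1 j = z b j * b.1 j := congrFun h1 j
  rw [h2] at h3
  exact mul_left_cancel h3

theorem log_le {L : Set ℕ → Prop} (hL : Reg L) (f g : ℕ → ℤˣ) (n : ℕ) :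
    Real.logb 2 (PL L g n) / n ≤ Real.logb 2 (PL L f n) / n + Real.logb 2 (PL Set.Nonempty (fun m => f m * g m) n) / n := by
  have h1 : (0 : ℝ) < PL L g n := by exact_mod_cast pos hL g n
  have h2 : (0 : ℝ) < PL L f n := by exact_mod_cast pos hL f n
  have h3 : (0 : ℝ) < PL Set.Nonempty (fun m => f m * g m) n := by exact_mod_cast pos reg_nonempty _ n
  rw [← add_div, ← Real.logb_mul h2.ne' h3.ne']
  refine div_le_div_of_nonneg_right (Real.logb_le_logb_of_le (by norm_num) h1 ?_) (Nat.cast_nonneg _)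
  exact_mod_cast pl_le hL f g n

theorem transfer {L : Set ℕ → Prop} (hL : Reg L) (f g : ℕ → ℤˣ) (h : ℝ)
    (hf : Tendsto (fun n : ℕ => Real.logb 2 (PL L f n) / n) atTop (𝓝 h))
    (hz : Tendsto (fun n : ℕ => Real.logb 2 (PL Set.Nonempty (fun m => f m * g m) n) / n) atTop (𝓝 0)) :
    Tendsto (fun n : ℕ => Real.logb 2 (PL L g n) / n) atTop (𝓝 h) := by
  have h1 := hf.add hz
  have h2 := hf.sub hz
  rw [add_zero] at h1
  rw [sub_zero] at h2
  refine tendsto_of_tendsto_of_tendsto_of_le_of_le h2 h1 (fun n => ?_) (fun n => log_le hL f g n)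
  have h3 := log_le hL g f n
  have h4 : (fun m => g m * f m) = fun m => f m * g m := by
    funext m
    exact mul_comm _ _
  rw [h4] at h3
  linarith

end Pool.Agent.K9h52.EG.Trf
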