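import Pool.Agent.K9h52.EG.Top2
import Pool.Agent.K9h52.EG.Trf

set_option autoImplicit false

namespace Pool.Agent.K9h52.EG.Top3

open Filter Topology Pool.Agent.K9h52.EG Pool.Agent.K9h52.EG.Trf

/-- finitely many primes have zero entropy -/
def S_ZERO : Prop := ∀ z : ℕ → ℤˣ, Multiplicative z → {p : ℕ | p.Prime ∧ z p ≠ 1}.Finite →
  Tendsto (fun n : ℕ => Real.logb 2 (PL Set.Nonempty z n) / n) atTop (𝓝 0)

theorem full_one {L : Set ℕ → Prop} {f : ℕ → ℤˣ} {h : ℝ}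
    (hf : Tendsto (fun n : ℕ => Real.logb 2 (PL L f n) / n) atTop (𝓝 h))
    (hall : ∀ (n : ℕ) (e : Fin n → ℤˣ), OccursL L f e) : h = 1 := by
  refine tendsto_nhds_unique hf (tendsto_const_nhds.congr' ?_)
  filter_upwards [eventually_ge_atTop 1] with n hn
  have hn' : (n : ℝ) ≠ 0 := by
    have : (0 : ℝ) < n := by exact_mod_cast hn
    exact this.ne'
  have h1 : PL L f n = 2 ^ n := by
    unfold PL
    rw [Nat.card_congr (Equiv.subtypeUnivEquiv (hall n)), Nat.card_eq_fintype_card, Fintype.card_fun, Fintype.card_fin,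
      Fintype.card_units_int]
  rw [h1]
  push_cast
  rw [Real.logb_pow, Real.logb_self_eq_one (by norm_num), mul_one, div_self hn']

theorem top3 (hZ : S_ZERO) : Multiplicative Pool.Agent.K9h52.EG.Top.lam ∧
    ∀ L : Set ℕ → Prop, L = Set.Nonempty ∨ L = PosUpperDensity → ∀ f : ℕ → ℤˣ, Multiplicative f → ∃ h : ℝ,
      Tendsto (fun n : ℕ => Real.logb 2 (PL L f n) / n) atTop (𝓝 h) ∧
      Tendsto (fun n : ℕ => (cubeDimL L f n : ℝ) / n) atTop (𝓝 h) ∧
      (∀ n : ℕ, 1 ≤ n → h ≤ (cubeDimL L f n : ℝ) / n) ∧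
      (∀ n : ℕ, 1 ≤ n → (∃ e : Fin n → ℤˣ, ¬ OccursL L f e) → h ≤ 1 - 1 / n) ∧
      (∀ g : ℕ → ℤˣ, Multiplicative g →
        ({p : ℕ | p.Prime ∧ g p ≠ f p}.Finite ∨
          Tendsto (fun n : ℕ => Real.logb 2 (PL Set.Nonempty (fun m => f m * g m) n) / n) atTop (𝓝 0)) →
        Tendsto (fun n : ℕ => Real.logb 2 (PL L g n) / n) atTop (𝓝 h) ∧
        ((∀ (n : ℕ) (e : Fin n → ℤˣ), OccursL L f e) ↔ ∀ (n : ℕ) (e : Fin n → ℤˣ), OccursL L g e)) := by
  refine ⟨Top2.top2.1, ?_⟩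
  intro L hL f hf
  have hR : Reg L := by
    rcases hL with rfl | rfl
    · exact reg_nonempty
    · exact reg_large Pool.Agent.K9h52.EG.ud
  obtain ⟨h, h1, h2, h3, h4⟩ := Top2.top2.2 L hL f hf
  refine ⟨h, h1, h2, h3, h4, ?_⟩
  intro g hg hfg
  have hz : Tendsto (fun n : ℕ => Real.logb 2 (PL Set.Nonempty (fun m => f m * g m) n) / n) atTop (𝓝 0) := by
    rcases hfg with hfin | hz
    · refine hZ (fun m => f m * g m) (fun p m hp hm => ?_) (hfin.subset ?_)
      · change f (p * m) * g (p * m) = f p * g p * (f m * g m)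
        rw [hf p m hp hm, hg p m hp hm]
        exact mul_mul_mul_comm _ _ _ _
      · rintro p ⟨hp, hne⟩
        refine ⟨hp, fun he => hne ?_⟩
        change f p * g p = 1
        rw [he, Int.units_mul_self]
    · exact hz
  have h5 := transfer hR f g h h1 hz
  obtain ⟨h', k1, k2, k3, k4⟩ := Top2.top2.2 L hL g hg
  have hh : h' = h := tendsto_nhds_unique k1 h5
  subst hh
  have key : ∀ f' : ℕ → ℤˣ, (∀ n : ℕ, 1 ≤ n → (∃ e : Fin n → ℤˣ, ¬ OccursL L f' e) → h' ≤ 1 - 1 / n) → h' = 1 →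
      ∀ (n : ℕ) (e : Fin n → ℤˣ), OccursL L f' e := by
    intro f' hk h1' n e
    rcases Nat.eq_zero_or_pos n with hn | hn
    · subst hn
      refine hR.mono _ _ ?_ hR.all
      intro m hm
      exact ⟨hm, fun j => j.elim0⟩
    · by_contra hcon
      have h6 := hk n hn ⟨e, hcon⟩
      rw [h1'] at h6
      have : (0 : ℝ) < 1 / n := by
        have : (0 : ℝ) < n := by exact_mod_cast hn
        positivity
      linarith
  exact ⟨h5, fun ha => key g k4 (full_one h1 ha), fun ha => key f h4 (full_one h5 ha)⟩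

end Pool.Agent.K9h52.EG.Top3
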