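import Pool.Agent.K9h52.EG.Trf

set_option autoImplicit false

namespace Pool.Agent.K9h52.EG.Zer

open Filter Topology Pool.Agent.K9h52.EG Pool.Agent.K9h52.EG.Trf

/-- the sign of the exponent of `p` -/
def u (p m : ℕ) : ℤˣ := (-1) ^ m.factorization p

theorem occ_congr {L : Set ℕ → Prop} {f g : ℕ → ℤˣ} (h : ∀ m, 1 ≤ m → f m = g m) {n : ℕ} (e : Fin n → ℤˣ) :
    OccursL L f e ↔ OccursL L g e := by
  unfold OccursL
  have : {m : ℕ | 1 ≤ m ∧ ∀ j : Fin n, f (m + j + 1) = e j} = {m : ℕ | 1 ≤ m ∧ ∀ j : Fin n, g (m + j + 1) = e j} := by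
    ext m
    simp only [Set.mem_setOf_eq]
    refine and_congr_right fun _ => forall_congr' fun j => ?_
    rw [h (m + j + 1) (by omega)]
  rw [this]

theorem pl_congr {L : Set ℕ → Prop} {f g : ℕ → ℤˣ} (h : ∀ m, 1 ≤ m → f m = g m) (n : ℕ) : PL L f n = PL L g n := by
  unfold PL
  exact Nat.card_congr (Equiv.subtypeEquivRight fun e => occ_congr h e)

/-- a completely multiplicative function which is `1` at the primes outside `D` -/
theorem eq_prod {z : ℕ → ℤˣ} (hz : Multiplicative z) (D : Finset ℕ) (hD : ∀ p, p ∈ D ↔ p.Prime ∧ z p ≠ 1) (m : ℕ) :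
    1 ≤ m → z m = ∏ p ∈ D, u p m := by
  induction m using induction_on_primes with
  | zero => intro h; omega
  | one =>
    intro _
    have h1 := hz 2 1 Nat.prime_two le_rfl
    rw [mul_one] at h1
    have h2 : z 1 = 1 := by
      have := mul_left_cancel (a := z 2) (b := z 1) (c := 1) (by rw [← h1, mul_one])
      exact this
    rw [h2]
    symm
    refine Finset.prod_eq_one fun p _ => ?_
    unfold u
    simp
  | prime_mul p a hp ih =>
    intro h
    have ha : 1 ≤ a := by
      rcases Nat.eq_zero_or_pos a with h0 | h0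
      · subst h0; omega
      · exact h0
    rw [hz p a hp ha, ih ha]
    have h1 : ∀ q ∈ D, u q (p * a) = (if q = p then -1 else 1) * u q a := by
      intro q _
      unfold u
      rw [Nat.factorization_mul hp.ne_zero (by omega), Finsupp.add_apply, pow_add, hp.factorization]
      congr 1
      by_cases hq : q = p
      · subst hq; simp
      · rw [Finsupp.single_apply, if_neg (Ne.symm hq), if_neg hq, pow_zero]
    rw [Finset.prod_congr rfl h1, Finset.prod_mul_distrib, Finset.prod_ite_eq' D p]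
    congr 1
    by_cases hpD : p ∈ D
    · rw [if_pos hpD]
      rcases Int.units_eq_one_or (z p) with h3 | h3
      · exact absurd h3 ((hD p).1 hpD).2
      · exact h3
    · rw [if_neg hpD]
      by_contra h3
      exact hpD ((hD p).2 ⟨hp, h3⟩)

/-- the sign of the exponent of `p` is determined by the class modulo `p ^ k` if this is not zero -/
theorem u_congr {p k a b : ℕ} (hp : p.Prime) (hab : a ≡ b [MOD p ^ k]) (ha : ¬ p ^ k ∣ a) : u p a = u p b := by
  have hb : ¬ p ^ k ∣ b := fun h => ha ((Nat.ModEq.dvd_iff hab dvd_rfl).2 h)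
  have ha0 : a ≠ 0 := fun h => ha (h ▸ dvd_zero _)
  have hb0 : b ≠ 0 := fun h => hb (h ▸ dvd_zero _)
  have key : ∀ i, i < k → (p ^ i ∣ a ↔ p ^ i ∣ b) := fun i hi => Nat.ModEq.dvd_iff hab (pow_dvd_pow p hi.le)
  have h1 : a.factorization p < k := by
    by_contra h
    push Not at h
    exact ha ((hp.pow_dvd_iff_le_factorization ha0).2 h)
  have h2 : b.factorization p < k := by
    by_contra h
    push Not at h
    exact hb ((hp.pow_dvd_iff_le_factorization hb0).2 h)
  have h3 : a.factorization p ≤ b.factorization p :=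
    (hp.pow_dvd_iff_le_factorization hb0).1 ((key _ h1).1 ((hp.pow_dvd_iff_le_factorization ha0).2 le_rfl))
  have h4 : b.factorization p ≤ a.factorization p :=
    (hp.pow_dvd_iff_le_factorization ha0).1 ((key _ h2).2 ((hp.pow_dvd_iff_le_factorization hb0).2 le_rfl))
  unfold u
  rw [le_antisymm h3 h4]

theorem one_prime {p n k : ℕ} (hp : p.Prime) (hk : n ≤ p ^ k) : PL Set.Nonempty (u p) n ≤ p ^ k * 2 := by
  classical
  have hq : 0 < p ^ k := pow_pos hp.pos k
  have hocc : ∀ e : {e : Fin n → ℤˣ // OccursL Set.Nonempty (u p) e}, ∃ m : ℕ, 1 ≤ m ∧ ∀ j : Fin n, u p (m + j + 1) = e.1 j :=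
    fun e => e.2
  choose m hm using hocc
  unfold PL
  have hc : Nat.card (Fin (p ^ k) × ℤˣ) = p ^ k * 2 := by
    rw [Nat.card_prod, Nat.card_eq_fintype_card, Fintype.card_fin, Nat.card_eq_fintype_card, Fintype.card_units_int]
  rw [← hc]
  refine Nat.card_le_card_of_injective
    (fun e => ((⟨m e % p ^ k, Nat.mod_lt _ hq⟩ : Fin (p ^ k)), u p (p ^ k * (m e / p ^ k + 1)))) ?_
  intro a b hab
  have h1 : m a % p ^ k = m b % p ^ k := congrArg (fun x => (x.1 : ℕ)) hab
  have h2 : u p (p ^ k * (m a / p ^ k + 1)) = u p (p ^ k * (m b / p ^ k + 1)) := congrArg (fun x => x.2) hab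
  apply Subtype.ext
  funext j
  rw [← (hm a).2 j, ← (hm b).2 j]
  have h3 : m a + j + 1 ≡ m b + j + 1 [MOD p ^ k] := Nat.ModEq.add_right _ (Nat.ModEq.add_right _ h1)
  have key : ∀ c : ℕ, p ^ k ∣ c + j + 1 → c + j + 1 = p ^ k * (c / p ^ k + 1) := by
    intro c hc
    obtain ⟨t, ht⟩ := hc
    have hj : (j : ℕ) < p ^ k := lt_of_lt_of_le j.2 hk
    have h5 := Nat.div_add_mod c (p ^ k)
    have h6 := Nat.mod_lt c hq
    have h9 : p ^ k * (c / p ^ k) ≤ c := Nat.mul_div_le c (p ^ k)
    have h7 : c / p ^ k < t := by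
      by_contra hcon
      push Not at hcon
      have := Nat.mul_le_mul_left (p ^ k) hcon
      omega
    have h8 : t < c / p ^ k + 2 := by
      by_contra hcon
      push Not at hcon
      have := Nat.mul_le_mul_left (p ^ k) hcon
      rw [mul_add] at this
      omega
    rw [ht]
    congr 1
    omega
  by_cases hd : p ^ k ∣ m a + j + 1
  · have hd' : p ^ k ∣ m b + j + 1 := (Nat.ModEq.dvd_iff h3 dvd_rfl).1 hd
    rw [key _ hd, key _ hd', h2]
  · exact u_congr hp h3 hd

theorem one_prime' {p n : ℕ} (hp : p.Prime) (hn : 1 ≤ n) : PL Set.Nonempty (u p) n ≤ 2 * p * n := by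
  refine (one_prime hp (Nat.le_pow_clog hp.one_lt n)).trans ?_
  have h1 : p ^ Nat.clog p n ≤ p * n := by
    rcases Nat.lt_or_ge 1 n with h | h
    · have h2 := Nat.pow_pred_clog_lt_self hp.one_lt h
      have h3 : 0 < Nat.clog p n := Nat.clog_pos hp.one_lt h
      obtain ⟨k, hk⟩ := Nat.exists_eq_succ_of_ne_zero h3.ne'
      rw [hk] at h2 ⊢
      rw [pow_succ, mul_comm]
      exact Nat.mul_le_mul_left p (by simpa using h2.le)
    · have : n = 1 := by omega
      subst this
      simp [hp.one_lt.le]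
  calc p ^ Nat.clog p n * 2 ≤ (p * n) * 2 := Nat.mul_le_mul_right 2 h1
    _ = 2 * p * n := by ring

theorem prod_le (D : Finset ℕ) (hD : ∀ p ∈ D, p.Prime) (n : ℕ) (hn : 1 ≤ n) :
    PL Set.Nonempty (fun m => ∏ p ∈ D, u p m) n ≤ ∏ p ∈ D, (2 * p * n) := by
  classical
  induction D using Finset.induction_on with
  | empty =>
    simp only [Finset.prod_empty]
    unfold PL
    have : Subsingleton {e : Fin n → ℤˣ // OccursL Set.Nonempty (fun _ => (1 : ℤˣ)) e} := by
      refine ⟨fun a b => Subtype.ext (funext fun j => ?_)⟩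
      obtain ⟨m, hm⟩ := a.2
      obtain ⟨m', hm'⟩ := b.2
      rw [← hm.2 j, ← hm'.2 j]
    exact Finite.card_le_one_iff_subsingleton.2 this
  | insert q D hq ih =>
    rw [Finset.prod_insert hq]
    have h1 := pl_le reg_nonempty (u q) (fun m => u q m * ∏ p ∈ D, u p m) n
    have h2 : (fun m => u q m * (u q m * ∏ p ∈ D, u p m)) = fun m => ∏ p ∈ D, u p m := by
      funext m
      rw [← mul_assoc, Int.units_mul_self, one_mul]
    rw [h2] at h1
    have h3 : (fun m => ∏ p ∈ insert q D, u p m) = fun m => u q m * ∏ p ∈ D, u p m := by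
      funext m
      rw [Finset.prod_insert hq]
    rw [h3]
    exact h1.trans (Nat.mul_le_mul (one_prime' (hD q (Finset.mem_insert_self q D)) hn)
      (ih fun p hp => hD p (Finset.mem_insert_of_mem hp)))

theorem zero_entropy (z : ℕ → ℤˣ) (hz : Multiplicative z) (hfin : {p : ℕ | p.Prime ∧ z p ≠ 1}.Finite) :
    Tendsto (fun n : ℕ => Real.logb 2 (PL Set.Nonempty z n) / n) atTop (𝓝 0) := by
  classical
  set D : Finset ℕ := hfin.toFinset with hDdef
  have hD : ∀ p, p ∈ D ↔ p.Prime ∧ z p ≠ 1 := fun p => by rw [hDdef, Set.Finite.mem_toFinset]; rfl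
  set C : ℕ := ∏ p ∈ D, (2 * p) with hC
  have hC0 : 0 < C := Finset.prod_pos fun p hp => by have := ((hD p).1 hp).1.pos; positivity
  have hle : ∀ n : ℕ, 1 ≤ n → PL Set.Nonempty z n ≤ C * n ^ D.card := by
    intro n hn
    rw [pl_congr (eq_prod hz D hD) n]
    refine (prod_le D (fun p hp => ((hD p).1 hp).1) n hn).trans (le_of_eq ?_)
    rw [Finset.prod_mul_distrib, Finset.prod_const]
  have hlim : Tendsto (fun n : ℕ => (Real.logb 2 C + D.card * Real.logb 2 n) / n) atTop (𝓝 0) := by
    have h1 : Tendsto (fun n : ℕ => Real.log (n : ℝ) / n) atTop (𝓝 0) :=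
      (Real.isLittleO_log_id_atTop.tendsto_div_nhds_zero).comp tendsto_natCast_atTop_atTop
    have h2 : Tendsto (fun n : ℕ => Real.logb 2 C / (n : ℝ)) atTop (𝓝 0) := tendsto_const_div_atTop_nhds_zero_nat _
    have h3 := h2.add (h1.const_mul (D.card / Real.log 2))
    rw [mul_zero, add_zero] at h3
    refine h3.congr fun n => ?_
    simp only [Real.logb]
    ring
  refine squeeze_zero' (Eventually.of_forall fun n => ?_) ?_ hlim
  · refine div_nonneg (Real.logb_nonneg (by norm_num) ?_) (Nat.cast_nonneg n)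
    exact_mod_cast pos reg_nonempty z n
  · filter_upwards [eventually_ge_atTop 1] with n hn
    refine div_le_div_of_nonneg_right ?_ (Nat.cast_nonneg n)
    have h1 : (0 : ℝ) < PL Set.Nonempty z n := by exact_mod_cast pos reg_nonempty z n
    have hn0 : (0 : ℝ) < n := by exact_mod_cast hn
    have hC0' : (0 : ℝ) < C := by exact_mod_cast hC0
    have h2 : (PL Set.Nonempty z n : ℝ) ≤ C * n ^ D.card := by exact_mod_cast hle n hn
    refine (Real.logb_le_logb_of_le (by norm_num) h1 h2).trans (le_of_eq ?_)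
    rw [Real.logb_mul hC0'.ne' (by positivity), Real.logb_pow]

end Pool.Agent.K9h52.EG.Zer
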